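import Pool.Agent.J6H13.ABC.Fin
import Pool.Agent.Helper923.PNT

/-!
Asymptotics: consequences of the prime number theorem and the choice of parameters.
-/

set_option autoImplicit false

open Real Filter Topology MeasureTheory

namespace Pool.Agent.J6H13.ABC

/-- odd primes up to `y` -/
def oddPrimes (y : ℕ) : Finset ℕ := (Finset.range (y + 1)).filter (fun p => p.Prime ∧ p ≠ 2)

lemma mem_oddPrimes {y p : ℕ} : p ∈ oddPrimes y ↔ p ≤ y ∧ p.Prime ∧ p ≠ 2 := by
  unfold oddPrimes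
  rw [Finset.mem_filter, Finset.mem_range, Nat.lt_succ_iff]

lemma insert_oddPrimes {y : ℕ} (hy : 2 ≤ y) :
    insert 2 (oddPrimes y) = (Finset.range (y + 1)).filter Nat.Prime := by
  ext p
  rw [Finset.mem_insert, mem_oddPrimes, Finset.mem_filter, Finset.mem_range, Nat.lt_succ_iff]
  constructor
  · rintro (rfl | ⟨h1, h2, -⟩)
    · exact ⟨hy, Nat.prime_two⟩
    · exact ⟨h1, h2⟩
  · rintro ⟨h1, h2⟩
    by_cases h : p = 2
    · exact Or.inl h
    · exact Or.inr ⟨h1, h2, h⟩

lemma two_notMem_oddPrimes (y : ℕ) : 2 ∉ oddPrimes y := by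
  rw [mem_oddPrimes]; simp

lemma card_oddPrimes {y : ℕ} (hy : 2 ≤ y) :
    ((oddPrimes y).card : ℝ) = (Nat.primeCounting y : ℝ) - 1 := by
  have h : Nat.primeCounting y = (oddPrimes y).card + 1 := by
    rw [Nat.primeCounting, Nat.primeCounting', Nat.count_eq_card_filter_range, ← insert_oddPrimes hy,
      Finset.card_insert_of_notMem (two_notMem_oddPrimes y)]
  rw [h]; push_cast; ring

lemma sum_log_oddPrimes {y : ℕ} (hy : 2 ≤ y) :
    log 2 + ∑ p ∈ oddPrimes y, log p = Chebyshev.theta y := by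
  have h : Chebyshev.theta (y : ℝ) = ∑ p ∈ (Finset.range (y + 1)).filter Nat.Prime, log p := by
    rw [Chebyshev.theta_eq_sum_Icc, Nat.floor_natCast]
    refine Finset.sum_congr ?_ fun _ _ => rfl
    ext p; simp
  rw [h, ← insert_oddPrimes hy, Finset.sum_insert (two_notMem_oddPrimes y)]
  push_cast; ring

lemma pi_bounds {ε : ℝ} (hε : 0 < ε) : ∀ᶠ x : ℝ in atTop,
    (1 - ε) * (x / log x) ≤ Nat.primeCounting ⌊x⌋₊ ∧
    (Nat.primeCounting ⌊x⌋₊ : ℝ) ≤ (1 + ε) * (x / log x) := by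
  have h := Pool.Agent.Helper923.PNT.pi_tendsto
  filter_upwards [h.eventually_const_lt (show 1 - ε < 1 by linarith),
    h.eventually_lt_const (show 1 < 1 + ε by linarith), eventually_gt_atTop 1] with x h1 h2 hx
  have hl : 0 < log x := log_pos hx
  have hx0 : 0 < x := by linarith
  rw [lt_div_iff₀ hx0] at h1
  rw [div_lt_iff₀ hx0] at h2
  rw [← mul_div_assoc, ← mul_div_assoc, div_le_iff₀ hl, le_div_iff₀ hl]
  exact ⟨h1.le, h2.le⟩

/-- `π(x) log x - θ(x) ≥ (1 - ε) x / log x` -/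
lemma layer {ε : ℝ} (hε : 0 < ε) (hε1 : ε ≤ 1) : ∀ᶠ x : ℝ in atTop,
    (1 - 2 * ε) * (x / log x) ≤ Nat.primeCounting ⌊x⌋₊ * log x - Chebyshev.theta x := by
  obtain ⟨x0, hx0⟩ := (pi_bounds hε).exists_forall_of_atTop
  filter_upwards [eventually_ge_atTop (max 2 (x0 / ε)), eventually_ge_atTop (2 / ε)] with x hx hxb
  have hx2 : 2 ≤ x := (le_max_left _ _).trans hx
  have hx3 : x0 ≤ ε * x := by
    have := (le_max_right 2 (x0 / ε)).trans hx
    rwa [div_le_iff₀ hε, mul_comm] at this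
  have hx4 : 2 ≤ ε * x := by rwa [div_le_iff₀ hε, mul_comm] at hxb
  have hxpos : 0 < x := by linarith
  have hl : 0 < log x := log_pos (by linarith)
  rw [Chebyshev.theta_eq_primeCounting_mul_log_sub_integral hx2]
  have hint : ∀ a b : ℝ, 2 ≤ a → a ≤ b →
      IntervalIntegrable (fun t : ℝ => (Nat.primeCounting ⌊t⌋₊ : ℝ) / t) volume a b := by
    intro a b ha hab
    have h1 : IntervalIntegrable (fun t : ℝ => (Nat.primeCounting ⌊t⌋₊ : ℝ)) volume a b := by
      refine Monotone.intervalIntegrable ?_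
      intro s t hst
      have : Nat.primeCounting ⌊s⌋₊ ≤ Nat.primeCounting ⌊t⌋₊ :=
        Nat.monotone_primeCounting (Nat.floor_le_floor hst)
      exact Nat.cast_le.2 this
    refine h1.mul_continuousOn ?_
    refine ContinuousOn.inv₀ continuousOn_id ?_
    intro t ht
    rw [Set.uIcc_of_le hab] at ht
    have : 2 ≤ t := ha.trans ht.1
    exact (show (0:ℝ) < t by linarith).ne'
  have hle : ε * x ≤ x := by nlinarith
  have hsplit : ∫ t in (2:ℝ)..x, (Nat.primeCounting ⌊t⌋₊ : ℝ) / t =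
      (∫ t in (2:ℝ)..(ε * x), (Nat.primeCounting ⌊t⌋₊ : ℝ) / t) +
        ∫ t in (ε * x)..x, (Nat.primeCounting ⌊t⌋₊ : ℝ) / t :=
    (intervalIntegral.integral_add_adjacent_intervals (hint _ _ le_rfl hx4) (hint _ _ hx4 hle)).symm
  have h1 : 0 ≤ ∫ t in (2:ℝ)..(ε * x), (Nat.primeCounting ⌊t⌋₊ : ℝ) / t := by
    refine intervalIntegral.integral_nonneg hx4 fun t ht => ?_
    have : (0:ℝ) < t := by linarith [ht.1]
    positivity
  have h2 : (1 - ε) / log x * (x - ε * x) ≤ ∫ t in (ε * x)..x, (Nat.primeCounting ⌊t⌋₊ : ℝ) / t := by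
    have h3 : ∫ t in (ε * x)..x, ((1 - ε) / log x) = (1 - ε) / log x * (x - ε * x) := by
      rw [intervalIntegral.integral_const, smul_eq_mul, mul_comm]
    rw [← h3]
    refine intervalIntegral.integral_mono_on hle ?_ (hint _ _ hx4 hle) ?_
    · exact intervalIntegrable_const
    · intro t ht
      have ht0 : x0 ≤ t := hx3.trans ht.1
      have ht2 : 2 ≤ t := hx4.trans ht.1
      have htl : 0 < log t := log_pos (by linarith)
      have h5 := (hx0 t ht0).1
      have h6 : (1 - ε) / log x ≤ (1 - ε) / log t :=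
        div_le_div_of_nonneg_left (by linarith) htl (log_le_log (by linarith) ht.2)
      refine h6.trans ?_
      rw [le_div_iff₀ (by linarith)]
      calc (1 - ε) / log t * t = (1 - ε) * (t / log t) := by ring
        _ ≤ _ := h5
  have h3 : (1 - 2 * ε) * (x / log x) ≤ (1 - ε) / log x * (x - ε * x) := by
    have h4 : (1 - ε) / log x * (x - ε * x) = (1 - ε) ^ 2 * (x / log x) := by ring
    rw [h4]
    refine mul_le_mul_of_nonneg_right ?_ (div_nonneg hxpos.le hl.le)
    nlinarith [sq_nonneg ε]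
  linarith

end Pool.Agent.J6H13.ABC
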