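import Pool.Agent.J6H13.ABC.Vec

/-!
abc-triples with small radical composed of the primes of a finite set.
-/

set_option autoImplicit false

open Real Filter Topology

namespace Pool.Agent.J6H13.ABC

theorem finite_main {ε : ℝ} (hε : 0 < ε) (hε1 : ε ≤ 1) : ∃ C w₀ : ℝ, ∃ n₀ : ℕ, 0 < C ∧ 0 < w₀ ∧
    ∀ (P : Finset ℕ) (s : ℝ) (T m R : ℕ), (∀ p ∈ P, p.Prime ∧ p ≠ 2) → n₀ ≤ P.card → 0 < s →
      (∀ p ∈ P, log p ≤ w₀ * s) → 1 ≤ T → C * P.card * s + 1 ≤ R →
      ((2 : ℝ) ^ m * (2 * R + 1) * T) * ∏ p ∈ P, (log p / s) < 1 / 2 * exp ((2 - 3 * ε) * P.card) →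
      ∃ a b : ℕ, 0 < b ∧ b < a ∧ a.Coprime b ∧ 2 ^ m ∣ a - b ∧
        (∀ p : ℕ, p.Prime → p ∣ a * b → p ∈ P) ∧
        log a ≤ s * P.card * (1 + 2 * ε) * (1 + 1 / (T : ℝ)) + 1 / 2 := by
  obtain ⟨C, w₀, n₀, hC, hw₀, hmain⟩ := prod_count hε hε1
  refine ⟨C, w₀, n₀, hC, hw₀, ?_⟩
  intro P s T m R hP hn hs hw hT hR hlt
  classical
  let ι : Type := {p // p ∈ P}
  let q : ι → ℕ := fun i => i.1
  have hq : ∀ i, (q i).Prime := fun i => (hP i.1 i.2).1
  have hinj : Function.Injective q := Subtype.val_injective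
  have hcop : ∀ i : ι, Nat.Coprime (q i) (2 ^ m) := fun i =>
    Nat.Coprime.pow_right _ ((Nat.coprime_primes (hq i) Nat.prime_two).2 (hP i.1 i.2).2)
  let u : ι → (ZMod (2 ^ m))ˣ := fun i => ZMod.unitOfCoprime (q i) (hcop i)
  have hu : ∀ i, (u i : ZMod (2 ^ m)) = q i := fun i => ZMod.coe_unitOfCoprime _ _
  have hcard : Fintype.card ι = P.card := Fintype.card_coe P
  have hlogpos : ∀ i, 0 < log (q i) := fun i => log_pos (by exact_mod_cast (hq i).one_lt)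
  obtain ⟨A, hA1, hA2, hA3⟩ := hmain ι (fun i => log (q i) / s) (fun i => div_pos (hlogpos i) hs)
    (fun i => by rw [div_le_iff₀ hs]; exact hw i.1 i.2) (by rw [hcard]; exact hn)
  rw [hcard] at hA3
  have hprod : ∏ i : ι, (log (q i) / s) = ∏ p ∈ P, (log p / s) :=
    Finset.prod_coe_sort P (fun p => log (p : ℝ) / s)
  rw [hprod] at hA3
  have hpp : 0 < ∏ p ∈ P, (log p / s) := by
    rw [← hprod]; exact Finset.prod_pos fun i _ => div_pos (hlogpos i) hs
  have hAc : 2 ^ m * (2 * R + 1) * T < A.card := by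
    have := lt_of_mul_lt_mul_right (hlt.trans_le hA3) hpp.le
    exact_mod_cast this
  obtain ⟨d, hd0, hd1, hd2, hd3⟩ := pigeon hq u hs A hA1 hA2 hT (by rw [hcard]; exact hR) hAc
  obtain ⟨a, b, hb, hba, hab, hdv, hpr, hlog⟩ := triple_of_vec hq hinj u hu d hd0 hd1 hd2 hd3
  refine ⟨a, b, hb, hba, hab, hdv, ?_, ?_⟩
  · intro p hp hdvd
    obtain ⟨i, rfl⟩ := hpr p hp hdvd
    exact i.2
  · rw [hcard] at hlog
    refine hlog.trans (le_of_eq ?_)
    ring

/-- the product of the distinct primes dividing `n` -/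
def rad (n : ℕ) : ℕ := ∏ p ∈ n.primeFactors, p

lemma rad_pos (n : ℕ) : 0 < rad n :=
  Finset.prod_pos fun _ hp => (Nat.prime_of_mem_primeFactors hp).pos

lemma rad_le {n : ℕ} (hn : 0 < n) : rad n ≤ n := Nat.le_of_dvd hn (Nat.prod_primeFactors_dvd n)

lemma prod_union_le (A B : Finset ℕ) (hA : ∀ p ∈ A, 1 ≤ p) :
    ∏ p ∈ A ∪ B, p ≤ (∏ p ∈ A, p) * ∏ p ∈ B, p := by
  have h := Finset.prod_union_inter (s₁ := A) (s₂ := B) (f := fun p : ℕ => p)
  rw [← h]
  refine Nat.le_mul_of_pos_right _ (Finset.prod_pos fun p hp => ?_)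
  exact hA p (Finset.mem_inter.1 hp).1

lemma rad_mul_le {m n : ℕ} (hm : m ≠ 0) (hn : n ≠ 0) : rad (m * n) ≤ rad m * rad n := by
  unfold rad
  rw [Nat.primeFactors_mul hm hn]
  exact prod_union_le _ _ (fun p hp => (Nat.prime_of_mem_primeFactors hp).one_lt.le)

lemma rad_bound {P : Finset ℕ} (hP : ∀ p ∈ P, p.Prime) {a b m : ℕ} (hb : 0 < b) (hba : b < a)
    (hdv : 2 ^ m ∣ a - b) (hpr : ∀ p : ℕ, p.Prime → p ∣ a * b → p ∈ P) :
    rad (b * (a - b) * a) * 2 ^ m ≤ 2 * (∏ p ∈ P, p) * a := by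
  have ha : 0 < a := by omega
  obtain ⟨k, hk⟩ := hdv
  have hk0 : 0 < k := by
    rcases Nat.eq_zero_or_pos k with h | h
    · subst h; omega
    · exact h
  have h1 : rad (b * (a - b) * a) ≤ rad (a * b) * rad (a - b) := by
    have : b * (a - b) * a = (a * b) * (a - b) := by ring
    rw [this]
    exact rad_mul_le (by positivity) (by omega)
  have h2 : rad (a * b) ≤ ∏ p ∈ P, p := by
    unfold rad
    refine Finset.prod_le_prod_of_subset_of_one_le' ?_ fun p hp _ => (hP p hp).one_lt.le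
    intro p hp
    exact hpr p (Nat.prime_of_mem_primeFactors hp) (Nat.dvd_of_mem_primeFactors hp)
  have h3 : rad (a - b) ≤ 2 * k := by
    rw [hk]
    refine (rad_mul_le (by positivity) hk0.ne').trans ?_
    refine Nat.mul_le_mul ?_ (rad_le hk0)
    rcases Nat.eq_zero_or_pos m with h | h
    · subst h; simp [rad]
    · unfold rad
      rw [Nat.primeFactors_prime_pow h.ne' Nat.prime_two]
      simp
  have h4 : 0 < ∏ p ∈ P, p := Finset.prod_pos fun p hp => (hP p hp).pos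
  calc rad (b * (a - b) * a) * 2 ^ m ≤ (rad (a * b) * rad (a - b)) * 2 ^ m :=
        Nat.mul_le_mul_right _ h1
    _ ≤ ((∏ p ∈ P, p) * (2 * k)) * 2 ^ m := Nat.mul_le_mul_right _ (Nat.mul_le_mul h2 h3)
    _ = 2 * (∏ p ∈ P, p) * (2 ^ m * k) := by ring
    _ ≤ 2 * (∏ p ∈ P, p) * a := by
        rw [← hk]; exact Nat.mul_le_mul_left _ (Nat.sub_le _ _)

lemma log_bound {P : Finset ℕ} (hP : ∀ p ∈ P, p.Prime) {a b m : ℕ} (hb : 0 < b) (hba : b < a)
    (hdv : 2 ^ m ∣ a - b) (hpr : ∀ p : ℕ, p.Prime → p ∣ a * b → p ∈ P) :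
    m * log 2 - (log 2 + ∑ p ∈ P, log p) ≤ log ((a : ℝ) / (rad (b * (a - b) * a) : ℝ)) ∧
    m * log 2 ≤ log a := by
  have ha : 0 < a := by omega
  have h := rad_bound hP hb hba hdv hpr
  have h' : (rad (b * (a - b) * a) : ℝ) * 2 ^ m ≤ 2 * (∏ p ∈ P, (p : ℝ)) * a := by
    have h0 := (Nat.cast_le (α := ℝ)).2 h
    rw [Nat.cast_mul, Nat.cast_mul, Nat.cast_mul, Nat.cast_prod, Nat.cast_pow] at h0
    exact h0
  have hr : (0 : ℝ) < rad (b * (a - b) * a) := by exact_mod_cast rad_pos _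
  have ha' : (0 : ℝ) < a := by exact_mod_cast ha
  have hPp : (0 : ℝ) < ∏ p ∈ P, (p : ℝ) := Finset.prod_pos fun p hp => by
    have := (hP p hp).pos; positivity
  constructor
  · have h2 := Real.log_le_log (by positivity) h'
    rw [Real.log_mul hr.ne' (by positivity), Real.log_pow, Real.log_mul (by positivity) ha'.ne',
      Real.log_mul (by norm_num) hPp.ne', Real.log_prod (fun p hp => by
        have := (hP p hp).pos; positivity)] at h2
    rw [Real.log_div ha'.ne' hr.ne']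
    linarith
  · have h3 : 2 ^ m ≤ a := (Nat.le_of_dvd (by omega) hdv).trans (Nat.sub_le _ _)
    have h4 : (2 : ℝ) ^ m ≤ a := by exact_mod_cast h3
    have h5 := Real.log_le_log (by positivity) h4
    rwa [Real.log_pow] at h5

end Pool.Agent.J6H13.ABC
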