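import Mathlib

/-!
The logistic law: `sg t = 1 / (1 + e^{-t})`, `U t = log (1 + e^t) + log (1 + e^{-t}) = E |t - X|`, and
the inequality `∑_{i,j} |t_i - t_j| ≤ 2 N ∑ U (t_i) - 2 N^2` for `N` real numbers.
-/

set_option autoImplicit false

open Real MeasureTheory Filter Topology

namespace Pool.Agent.J6H13.ABC

/-- distribution function of the logistic law -/
noncomputable def sg (t : ℝ) : ℝ := 1 / (1 + exp (-t))

/-- `E |t - X|` for a logistic variable `X` -/
noncomputable def U (t : ℝ) : ℝ := log (1 + exp t) + log (1 + exp (-t))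

lemma sg_pos (t : ℝ) : 0 < sg t := by unfold sg; positivity

lemma one_sub_sg (t : ℝ) : 1 - sg t = sg (-t) := by
  unfold sg
  have h := exp_pos t
  rw [neg_neg, exp_neg]
  field_simp
  ring

lemma sg_lt_one (t : ℝ) : sg t < 1 := by
  have := sg_pos (-t)
  rw [← one_sub_sg] at this
  linarith

lemma log_sg (t : ℝ) : log (sg t) = - log (1 + exp (-t)) := by
  unfold sg
  rw [one_div, log_inv]

/-- `sg (1 - sg) = e^{-U}` -/
lemma sg_mul (t : ℝ) : sg t * sg (-t) = exp (- U t) := by
  have h1 : (0:ℝ) < 1 + exp t := by positivity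
  have h2 : (0:ℝ) < 1 + exp (-t) := by positivity
  unfold U sg
  rw [neg_add, exp_add, exp_neg (log (1 + exp t)), exp_log h1, exp_neg (log (1 + exp (-t))),
    exp_log h2, neg_neg, one_div, one_div, mul_comm]

lemma hasDerivAt_sg (t : ℝ) : HasDerivAt sg (exp (- U t)) t := by
  have h2 : (0:ℝ) < 1 + exp (-t) := by positivity
  have h : HasDerivAt (fun t : ℝ => 1 + exp (-t)) (- exp (-t)) t := by
    have := ((hasDerivAt_neg t).exp).const_add 1
    simpa using this
  have h3 := h.inv h2.ne'
  have h4 : HasDerivAt sg (-(-exp (-t)) / (1 + exp (-t)) ^ 2) t := by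
    have : sg = fun t : ℝ => (1 + exp (-t))⁻¹ := by funext t; simp [sg]
    rw [this]; exact h3
  convert h4 using 1
  rw [← sg_mul]
  unfold sg
  rw [neg_neg]
  have h5 : exp t * exp (-t) = 1 := by rw [← exp_add]; simp
  have h1 : (0:ℝ) < 1 + exp t := by positivity
  field_simp
  ring_nf
  nlinarith [h5]

/-- antiderivative of `sg` -/
lemma hasDerivAt_log1 (t : ℝ) : HasDerivAt (fun t : ℝ => log (1 + exp t)) (sg t) t := by
  have h1 : (0:ℝ) < 1 + exp t := by positivity
  have h : HasDerivAt (fun t : ℝ => 1 + exp t) (exp t) t := by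
    simpa using (Real.hasDerivAt_exp t).const_add 1
  have h2 := h.log h1.ne'
  convert h2 using 1
  unfold sg
  have h5 : exp t * exp (-t) = 1 := by rw [← exp_add]; simp
  field_simp
  nlinarith [h5]

lemma hasDerivAt_log2 (t : ℝ) : HasDerivAt (fun t : ℝ => - log (1 + exp (-t))) (sg (-t)) t := by
  have h := (hasDerivAt_log1 (-t)).comp t (hasDerivAt_neg t)
  have h2 := h.neg
  have h3 : -(sg (-t) * -1) = sg (-t) := by ring
  rw [h3] at h2
  exact h2

lemma U_eq_neg (t : ℝ) : U t = U (-t) := by unfold U; rw [neg_neg, add_comm]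

lemma hasDerivAt_U (t : ℝ) : HasDerivAt U (sg t - sg (-t)) t := by
  have h := (hasDerivAt_log1 t).sub (hasDerivAt_log2 t)
  have h2 : ((fun t : ℝ => log (1 + exp t)) - fun t : ℝ => -log (1 + exp (-t))) = U := by
    funext x
    simp only [Pi.sub_apply, U]
    ring
  rw [h2] at h
  exact h

lemma U_nonneg (t : ℝ) : 0 ≤ U t := by
  unfold U
  have h1 : 0 ≤ log (1 + exp t) := log_nonneg (by linarith [exp_pos t])
  have h2 : 0 ≤ log (1 + exp (-t)) := log_nonneg (by linarith [exp_pos (-t)])
  linarith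

lemma U_lip (s t : ℝ) : |U s - U t| ≤ |s - t| := by
  have h : ∀ x ∈ (Set.univ : Set ℝ), HasDerivWithinAt U (sg x - sg (-x)) Set.univ x :=
    fun x _ => (hasDerivAt_U x).hasDerivWithinAt
  have hb : ∀ x ∈ (Set.univ : Set ℝ), ‖sg x - sg (-x)‖ ≤ 1 := by
    intro x _
    rw [Real.norm_eq_abs, abs_le]
    have := sg_pos x; have := sg_pos (-x); have := sg_lt_one x; have := sg_lt_one (-x)
    constructor <;> linarith
  have := convex_univ.norm_image_sub_le_of_norm_hasDerivWithin_le h hb (Set.mem_univ t)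
    (Set.mem_univ s)
  simpa using this

lemma U_zero_le : U 0 ≤ 2 := by
  unfold U
  simp only [neg_zero, exp_zero]
  have : log (1 + 1) ≤ 1 := by
    have := log_le_sub_one_of_pos (show (0:ℝ) < 1 + 1 by norm_num)
    linarith
  linarith

lemma U_le (t : ℝ) : U t ≤ |t| + 2 := by
  have h := U_lip t 0
  have := U_zero_le
  have h2 := (abs_le.1 h).2
  rw [sub_zero] at h2
  linarith

end Pool.Agent.J6H13.ABC
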