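import Pool.Agent.J6H13.ABC.Asymp

/-!
Infinitely many abc-triples with `log (c / rad (abc)) > K √(log c) / log log c` for all `K < 4 √e`.
-/

set_option autoImplicit false

open Real Filter Topology MeasureTheory

namespace Pool.Agent.J6H13.ABC

lemma tend_small (c : ℝ) : Tendsto (fun x : ℝ => (4 * log x + c) * log x / x) atTop (𝓝 0) := by
  have h1 : Tendsto (fun x : ℝ => log x ^ 2 / x) atTop (𝓝 0) := by
    simpa using Real.tendsto_pow_log_div_mul_add_atTop 1 0 2 one_ne_zero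
  have h2 : Tendsto (fun x : ℝ => log x ^ 1 / x) atTop (𝓝 0) := by
    simpa using Real.tendsto_pow_log_div_mul_add_atTop 1 0 1 one_ne_zero
  have h3 := (h1.const_mul 4).add (h2.const_mul c)
  rw [mul_zero, mul_zero, add_zero] at h3
  refine h3.congr fun x => ?_
  ring

lemma tend_big : Tendsto (fun x : ℝ => x / log x) atTop atTop := by
  have h2 : Tendsto (fun x : ℝ => log x / x) atTop (𝓝[>] 0) := by
    rw [tendsto_nhdsWithin_iff]
    constructor
    · simpa using Real.tendsto_pow_log_div_mul_add_atTop 1 0 1 one_ne_zero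
    · filter_upwards [eventually_gt_atTop 1] with x hx
      exact div_pos (log_pos hx) (by linarith)
  refine (tendsto_inv_nhdsGT_zero.comp h2).congr fun x => ?_
  simp [Function.comp, inv_div]

lemma aux1 {x T : ℝ} (hx : 3 ≤ x) (hT : 0 < T) : 8 * (2 * x ^ 3 + 1) * T ≤ 24 * T * x ^ 3 := by
  have h1 : 1 ≤ x ^ 3 := one_le_pow₀ (by linarith)
  have h2 : 8 * (2 * x ^ 3 + 1) ≤ 24 * x ^ 3 := by linarith
  have h3 := mul_le_mul_of_nonneg_right h2 hT.le
  linarith

lemma aux2 {x C ns : ℝ} (hC : 0 < C) (hx : 3 ≤ x) (h : C + 1 ≤ x) (hns : ns ≤ x ^ 2) :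
    C * ns + 1 ≤ x ^ 3 := by
  have h1 : C * ns ≤ C * x ^ 2 := mul_le_mul_of_nonneg_left hns hC.le
  have h2 : 1 ≤ x ^ 2 := one_le_pow₀ (by linarith)
  have h3 : (C + 1) * x ^ 2 ≤ x * x ^ 2 := mul_le_mul_of_nonneg_right h (by positivity)
  nlinarith

lemma aux3 {ε n X L θ W M : ℝ} (hε : 0 < ε) (hε1 : ε ≤ 1 / 100) (hX : 0 < X)
    (n1 : (1 - ε) * X ≤ n) (nL : (1 - ε) * X - L ≤ n * L - θ)
    (h8 : L + W ≤ ε * X) (hM : (1 - 3 * ε) * n + n * L - W ≤ M) :
    (2 - 6 * ε) * X ≤ M - θ := by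
  have e1 : (1 - 3 * ε) * ((1 - ε) * X) ≤ (1 - 3 * ε) * n :=
    mul_le_mul_of_nonneg_left n1 (by linarith)
  have e2 : 0 < ε * X := mul_pos hε hX
  have e3 : 0 < ε * (ε * X) := mul_pos hε e2
  have e4 : (1 - 3 * ε) * ((1 - ε) * X) = X - 4 * (ε * X) + 3 * (ε * (ε * X)) := by ring
  have e5 : (1 - ε) * X = X - ε * X := by ring
  have e6 : (2 - 6 * ε) * X = 2 * X - 6 * (ε * X) := by ring
  linarith

lemma aux4 {ε x : ℝ} (hε : 0 < ε) (hε1 : ε ≤ 1 / 100) (hx : 3 ≤ x) (k4 : exp 1 / (2 * ε) ≤ x)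
    {a : ℝ} (hY : a ≤ ((1 + ε) * x ^ 2 / exp 1) * (1 + 2 * ε) * (1 + ε) + 1 / 2) :
    a ≤ (1 + 6 * ε) * x ^ 2 / exp 1 := by
  have he : (0 : ℝ) < exp 1 := exp_pos 1
  have e2 : 1 / 2 ≤ ε * (x ^ 2 / exp 1) := by
    rw [← mul_div_assoc, le_div_iff₀ he]
    rw [div_le_iff₀ (by positivity)] at k4
    have h1 : x * (2 * ε) ≤ x ^ 2 * (2 * ε) :=
      mul_le_mul_of_nonneg_right (by nlinarith) (by positivity)
    linarith
  have e3 : 0 < x ^ 2 / exp 1 := by positivity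
  have e4 : ((1 + ε) * x ^ 2 / exp 1) * (1 + 2 * ε) * (1 + ε) =
      ((1 + ε) ^ 2 * (1 + 2 * ε)) * (x ^ 2 / exp 1) := by ring
  have e5 : (1 + ε) ^ 2 * (1 + 2 * ε) ≤ 1 + 5 * ε := by nlinarith [mul_pos hε hε]
  have e6 : ((1 + ε) ^ 2 * (1 + 2 * ε)) * (x ^ 2 / exp 1) ≤ (1 + 5 * ε) * (x ^ 2 / exp 1) :=
    mul_le_mul_of_nonneg_right e5 e3.le
  have e7 : (1 + 6 * ε) * x ^ 2 / exp 1 = (1 + 5 * ε) * (x ^ 2 / exp 1) + ε * (x ^ 2 / exp 1) := by
    ring
  rw [e7]
  linarith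

set_option maxHeartbeats 2000000 in
lemma rad_small {ε : ℝ} (hε : 0 < ε) (hε1 : ε ≤ 1 / 100) : ∀ᶠ y : ℕ in atTop,
    ∃ a b : ℕ, 0 < b ∧ b < a ∧ a.Coprime b ∧
      (2 - 6 * ε) * (y / log y) ≤ log ((a : ℝ) / (rad (b * (a - b) * a) : ℝ)) ∧
      (y : ℝ) / 2 ≤ log a ∧ log a ≤ (1 + 6 * ε) * (y : ℝ) ^ 2 / exp 1 := by
  obtain ⟨C, w₀, n₀, hC, hw₀, hmain⟩ := finite_main hε (by linarith : ε ≤ 1)
  obtain ⟨T, hT⟩ : ∃ T : ℕ, T = ⌈1 / ε⌉₊ := ⟨_, rfl⟩
  have hT1 : 1 / ε ≤ T := by rw [hT]; exact Nat.le_ceil _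
  have hTpos : (0 : ℝ) < T := lt_of_lt_of_le (by positivity) hT1
  have hTn : 1 ≤ T := by exact_mod_cast hTpos
  have hTe : 1 / (T : ℝ) ≤ ε := by
    rw [div_le_iff₀ hTpos]
    rw [div_le_iff₀ hε] at hT1
    linarith
  have ht := Pool.Agent.Helper923.PNT.theta_div_tendsto
  have hcast := tendsto_natCast_atTop_atTop (R := ℝ)
  have g1 := hcast.eventually (pi_bounds (half_pos hε))
  have g2 := hcast.eventually (layer (half_pos hε) (by linarith))
  have g3 := hcast.eventually (ht.eventually_const_lt (show (1 / 2 : ℝ) < 1 by norm_num))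
  have g4 := hcast.eventually (tend_big.eventually_ge_atTop (max (2 / ε) (2 * n₀)))
  have g5 := hcast.eventually (eventually_ge_atTop
    (max (exp 1 / w₀) (max 3 (max (C + 1) (exp 1 / (2 * ε))))))
  have g6 := hcast.eventually ((tend_small (log (24 * T))).eventually_lt_const hε)
  filter_upwards [g1, g2, g3, g4, g5, g6] with y h1 h2 h3 h4 h5 h6
  rw [Nat.floor_natCast] at h1 h2
  obtain ⟨x, hx⟩ : ∃ x : ℝ, x = (y : ℝ) := ⟨_, rfl⟩
  rw [← hx] at h1 h2 h3 h4 h5 h6 ⊢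
  obtain ⟨L, hL⟩ : ∃ L : ℝ, L = log x := ⟨_, rfl⟩
  rw [← hL] at h1 h2 h4 h6 ⊢
  obtain ⟨X, hX⟩ : ∃ X : ℝ, X = x / L := ⟨_, rfl⟩
  rw [← hX] at h1 h2 h4 ⊢
  have k1 : exp 1 / w₀ ≤ x := (le_max_left _ _).trans h5
  have k2 : 3 ≤ x := (le_max_left _ _).trans ((le_max_right _ _).trans h5)
  have k3 : C + 1 ≤ x := (le_max_left _ _).trans ((le_max_right _ _).trans ((le_max_right _ _).trans h5))
  have k4 : exp 1 / (2 * ε) ≤ x :=
    (le_max_right _ _).trans ((le_max_right _ _).trans ((le_max_right _ _).trans h5))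
  have k5 : 2 / ε ≤ X := (le_max_left _ _).trans h4
  have k6 : 2 * (n₀ : ℝ) ≤ X := (le_max_right _ _).trans h4
  have he : (0 : ℝ) < exp 1 := exp_pos 1
  have he2 : (2 : ℝ) ≤ exp 1 := by linarith [add_one_le_exp (1 : ℝ)]
  have hx0 : 0 < x := by linarith
  have hL0 : 0 < L := by rw [hL]; exact log_pos (by linarith)
  have hX0 : 0 < X := by rw [hX]; positivity
  have hy2 : 2 ≤ y := by
    have : (3 : ℝ) ≤ y := by rw [← hx]; exact k2
    have : 3 ≤ y := by exact_mod_cast this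
    omega
  obtain ⟨n, hn⟩ : ∃ n : ℝ, n = ((oddPrimes y).card : ℝ) := ⟨_, rfl⟩
  have hcard := card_oddPrimes hy2
  rw [← hn] at hcard
  have hεX : 2 ≤ ε * X := by rwa [div_le_iff₀ hε, mul_comm] at k5
  have n1 : (1 - ε) * X ≤ n := by rw [hcard]; nlinarith [h1.1]
  have n2 : n ≤ (1 + ε) * X := by rw [hcard]; nlinarith [h1.2]
  have hn0 : 0 ≤ n := by rw [hn]; positivity
  obtain ⟨θ, hθ⟩ : ∃ θ : ℝ, θ = Chebyshev.theta x := ⟨_, rfl⟩
  rw [← hθ] at h2 h3
  have nL : (1 - ε) * X - L ≤ n * L - θ := by rw [hcard]; linarith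
  have hθx : x / 2 ≤ θ := by
    have := (lt_div_iff₀ hx0).1 h3
    linarith
  have hsum : log 2 + ∑ p ∈ oddPrimes y, log p = θ := by
    rw [sum_log_oddPrimes hy2, hθ, hx]
  -- the logarithm of the number of windows
  have h8 : L + log (8 * (2 * x ^ 3 + 1) * T) ≤ ε * X := by
    have e1 : log (8 * (2 * x ^ 3 + 1) * T) ≤ log (24 * T) + 3 * L := by
      have e2 : log (24 * T) + 3 * L = log (24 * T * x ^ 3) := by
        rw [Real.log_mul (x := 24 * (T : ℝ)) (y := x ^ 3) (by positivity) (by positivity),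
          Real.log_pow, hL]
        norm_num
      rw [e2]
      exact Real.log_le_log (by positivity) (aux1 k2 hTpos)
    have e3 : (4 * L + log (24 * T)) * L ≤ ε * x := by
      rw [div_lt_iff₀ hx0] at h6
      exact h6.le
    have e4 : 4 * L + log (24 * T) ≤ ε * X := by
      rw [hX, ← mul_div_assoc, le_div_iff₀ hL0]
      exact e3
    linarith
  -- the parameters
  obtain ⟨s, hs⟩ : ∃ s : ℝ, s = x * L / exp 1 := ⟨_, rfl⟩
  have hs0 : 0 < s := by rw [hs]; positivity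
  obtain ⟨Q, hQ⟩ : ∃ Q : ℝ, Q = exp ((1 - 3 * ε) * n + n * L) / (4 * (2 * x ^ 3 + 1) * T) := ⟨_, rfl⟩
  have hQ0 : 0 < Q := by rw [hQ]; positivity
  have hlogQ : log Q = (1 - 3 * ε) * n + n * L - log (4 * (2 * x ^ 3 + 1) * T) := by
    rw [hQ, Real.log_div (exp_pos _).ne' (by positivity), Real.log_exp]
  have h48 : log (8 * (2 * x ^ 3 + 1) * T) = log 2 + log (4 * (2 * x ^ 3 + 1) * T) := by
    rw [← Real.log_mul (by norm_num) (by positivity)]; congr 1; ring
  have hlog2 : 0 < log 2 := log_pos (by norm_num)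
  have hεX0 : 0 < ε * X := mul_pos hε hX0
  have hQ1 : 1 ≤ Q := by
    rw [← Real.log_nonneg_iff hQ0, hlogQ]
    have e1 := aux3 hε hε1 hX0 n1 nL h8 (le_refl _)
    have e2 : (2 - 6 * ε) * X = 2 * X - 6 * (ε * X) := by ring
    have e3 : ε * X ≤ 1 / 100 * X := mul_le_mul_of_nonneg_right hε1 hX0.le
    linarith
  obtain ⟨m, hm1, hm2⟩ := exists_nat_pow_near hQ1 (show (1 : ℝ) < 2 by norm_num)
  have hm3 : log Q - log 2 ≤ m * log 2 := by
    have := Real.log_le_log hQ0 hm2.le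
    rw [Real.log_pow] at this
    push_cast at this
    linarith
  have hP : ∀ p ∈ oddPrimes y, p.Prime ∧ p ≠ 2 := fun p hp => (mem_oddPrimes.1 hp).2
  have hlogp : ∀ p ∈ oddPrimes y, log p ≤ L := by
    intro p hp
    have h1 := (mem_oddPrimes.1 hp)
    rw [hL, hx]
    refine Real.log_le_log ?_ (by exact_mod_cast h1.1)
    exact_mod_cast h1.2.1.pos
  have hLs : L ≤ w₀ * s := by
    rw [hs]
    rw [div_le_iff₀ hw₀] at k1
    have : w₀ * (x * L / exp 1) = (x * w₀) / exp 1 * L := by ring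
    rw [this]
    have : 1 ≤ x * w₀ / exp 1 := by rw [le_div_iff₀ he]; linarith
    nlinarith
  have hns : n * s ≤ (1 + ε) * x ^ 2 / exp 1 := by
    have e1 : (1 + ε) * X * s = (1 + ε) * x ^ 2 / exp 1 := by
      rw [hs, hX]; field_simp
    rw [← e1]
    exact mul_le_mul_of_nonneg_right n2 hs0.le
  have hns2 : n * s ≤ x ^ 2 := by
    refine hns.trans ?_
    rw [div_le_iff₀ he]
    nlinarith [mul_pos hx0 hx0]
  have hR : C * ((oddPrimes y).card : ℝ) * s + 1 ≤ ((y ^ 3 : ℕ) : ℝ) := by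
    push_cast
    rw [← hn, ← hx, mul_assoc]
    exact aux2 hC k2 k3 hns2
  have hprod : ∏ p ∈ oddPrimes y, (log p / s) ≤ exp (n * (1 - L)) := by
    have e1 : exp (n * (1 - L)) = (L / s) ^ (oddPrimes y).card := by
      rw [hn, Real.exp_nat_mul]
      congr 1
      rw [exp_sub, hL, exp_log hx0, ← hL, hs]
      field_simp
    rw [e1]
    rw [← Finset.prod_const]
    refine Finset.prod_le_prod (fun p hp => div_nonneg ?_ hs0.le) fun p hp => ?_
    · exact log_nonneg (by exact_mod_cast (hP p hp).1.one_lt.le)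
    · exact div_le_div_of_nonneg_right (hlogp p hp) hs0.le
  have hlt : ((2 : ℝ) ^ m * (2 * ((y ^ 3 : ℕ) : ℝ) + 1) * T) * ∏ p ∈ oddPrimes y, (log p / s) <
      1 / 2 * exp ((2 - 3 * ε) * (oddPrimes y).card) := by
    rw [← hn]
    push_cast
    rw [← hx]
    calc ((2 : ℝ) ^ m * (2 * x ^ 3 + 1) * T) * ∏ p ∈ oddPrimes y, (log p / s)
        ≤ (Q * (2 * x ^ 3 + 1) * T) * exp (n * (1 - L)) := by
          refine mul_le_mul ?_ hprod ?_ (by positivity)
          · refine mul_le_mul_of_nonneg_right (mul_le_mul_of_nonneg_right hm1 (by positivity))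
              hTpos.le
          · refine Finset.prod_nonneg fun p hp => div_nonneg ?_ hs0.le
            exact log_nonneg (by exact_mod_cast (hP p hp).1.one_lt.le)
      _ = exp ((1 - 3 * ε) * n + n * L) * exp (n * (1 - L)) / 4 := by
          rw [hQ]; field_simp
      _ = exp ((2 - 3 * ε) * n) / 4 := by
          rw [← exp_add]; congr 2; ring
      _ < 1 / 2 * exp ((2 - 3 * ε) * n) := by
          have := exp_pos ((2 - 3 * ε) * n)
          linarith
  have hn0' : n₀ ≤ (oddPrimes y).card := by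
    have : (n₀ : ℝ) ≤ ((oddPrimes y).card : ℝ) := by
      rw [← hn]
      have e3 : ε * X ≤ 1 / 100 * X := mul_le_mul_of_nonneg_right hε1 hX0.le
      linarith
    exact_mod_cast this
  obtain ⟨a, b, hb, hba, hab, hdv, hpr, hlog⟩ := hmain (oddPrimes y) s T m (y ^ 3) hP hn0' hs0
    (fun p hp => (hlogp p hp).trans hLs) hTn hR hlt
  obtain ⟨r1, r2⟩ := log_bound (fun p hp => (hP p hp).1) hb hba hdv hpr
  rw [hsum] at r1
  have hmθ : (2 - 6 * ε) * X ≤ m * log 2 - θ :=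
    aux3 hε hε1 hX0 n1 nL h8 (by linarith)
  refine ⟨a, b, hb, hba, hab, hmθ.trans r1, ?_, ?_⟩
  · have : 0 ≤ (2 - 6 * ε) * X := mul_nonneg (by linarith) hX0.le
    linarith
  · rw [← hn] at hlog
    have e1 : s * n * (1 + 2 * ε) * (1 + 1 / (T : ℝ)) ≤
        ((1 + ε) * x ^ 2 / exp 1) * (1 + 2 * ε) * (1 + ε) := by
      refine mul_le_mul ?_ (by linarith) (by positivity) (by positivity)
      refine mul_le_mul_of_nonneg_right ?_ (by positivity)
      rw [mul_comm]; exact hns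
    exact aux4 hε hε1 k2 k4 (hlog.trans (by linarith))

/-- the main theorem -/
theorem main (K : ℝ) (hK : K < 4 * √(exp 1)) (N : ℕ) : ∃ a b c : ℕ, 0 < a ∧ 0 < b ∧ a + b = c ∧
    Nat.Coprime a b ∧ N < c ∧
    K * √(log c) / log (log c) < log ((c : ℝ) / (rad (a * b * c) : ℝ)) := by
  have hse : 0 < √(exp 1) := Real.sqrt_pos.2 (exp_pos 1)
  -- choice of ε
  obtain ⟨K', hK', hKK, hK0⟩ : ∃ K' : ℝ, K' < 4 * √(exp 1) ∧ K ≤ K' ∧ 0 < K' :=
    ⟨max K (√(exp 1)), max_lt hK (by linarith), le_max_left _ _, lt_of_lt_of_le hse (le_max_right _ _)⟩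
  have hcont : Tendsto (fun ε : ℝ => K' * √(1 + 6 * ε) / √(exp 1) - (4 - 12 * ε)) (𝓝[>] 0)
      (𝓝 (K' * √(1 + 6 * 0) / √(exp 1) - (4 - 12 * 0))) := by
    refine Tendsto.mono_left ?_ nhdsWithin_le_nhds
    have : Continuous (fun ε : ℝ => K' * √(1 + 6 * ε) / √(exp 1) - (4 - 12 * ε)) := by fun_prop
    exact this.tendsto 0
  have hneg : K' * √(1 + 6 * 0) / √(exp 1) - (4 - 12 * 0) < 0 := by
    have : K' / √(exp 1) < 4 := by rw [div_lt_iff₀ hse]; exact hK'
    simp only [mul_zero, add_zero, Real.sqrt_one, mul_one, sub_zero]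
    linarith
  have hev := hcont.eventually_lt_const hneg
  have hev2 : ∀ᶠ ε : ℝ in 𝓝[>] 0, 0 < ε ∧ ε ≤ 1 / 100 := by
    have : Set.Ioc (0:ℝ) (1 / 100) ∈ 𝓝[>] (0:ℝ) := Ioc_mem_nhdsGT (by norm_num)
    exact this
  obtain ⟨ε, h1, hε, hε1⟩ := (hev.and hev2).exists
  -- large y
  have hcast := tendsto_natCast_atTop_atTop (R := ℝ)
  have hLt : Tendsto (fun y : ℕ => log (y : ℝ)) atTop atTop := Real.tendsto_log_atTop.comp hcast
  have hlim : Tendsto (fun L : ℝ => K' * √(1 + 6 * ε) / √(exp 1) * (L / (2 * L - 1))) atTop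
      (𝓝 (K' * √(1 + 6 * ε) / √(exp 1) * (1 / 2))) := by
    refine Tendsto.const_mul _ ?_
    have e1 : Tendsto (fun L : ℝ => 2 - L⁻¹) atTop (𝓝 (2 - 0)) :=
      tendsto_const_nhds.sub tendsto_inv_atTop_zero
    rw [sub_zero] at e1
    have e2 := e1.inv₀ two_ne_zero
    rw [show (1 / 2 : ℝ) = 2⁻¹ by norm_num]
    refine e2.congr' ?_
    filter_upwards [eventually_gt_atTop 1] with L hL
    have : (0:ℝ) < L := by linarith
    have h3 : 0 < 2 * L - 1 := by linarith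
    have h4 : 2 - L⁻¹ = (2 * L - 1) / L := by field_simp
    rw [h4, inv_div]
  have hlt2 : K' * √(1 + 6 * ε) / √(exp 1) * (1 / 2) < 2 - 6 * ε := by linarith
  have f1 := hLt.eventually (hlim.eventually_lt_const hlt2)
  have f2 := rad_small hε hε1
  have f3 := hcast.eventually (eventually_ge_atTop (max (2 * exp 2) (max 3 (2 * log (N + 1) + 1))))
  obtain ⟨y, g1, ⟨a, b, hb, hba, hab, q1, q2, q3⟩, g3⟩ := (f1.and (f2.and f3)).exists
  have k1 : 2 * exp 2 ≤ (y : ℝ) := (le_max_left _ _).trans g3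
  have k2 : 3 ≤ (y : ℝ) := (le_max_left _ _).trans ((le_max_right _ _).trans g3)
  have k3 : 2 * log ((N : ℝ) + 1) + 1 ≤ (y : ℝ) := (le_max_right _ _).trans ((le_max_right _ _).trans g3)
  have ha : 0 < a := by omega
  have ha' : (0:ℝ) < a := by exact_mod_cast ha
  refine ⟨b, a - b, a, hb, by omega, by omega, ?_, ?_, ?_⟩
  · rw [Nat.coprime_sub_self_right hba.le]
    exact hab.symm
  · have e1 : log ((N : ℝ) + 1) < log a := by linarith
    have e2 : (N : ℝ) + 1 < a := (Real.log_lt_log_iff (by positivity) ha').1 e1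
    have e3 : (N : ℝ) < a := by linarith
    exact_mod_cast e3
  · refine lt_of_lt_of_le ?_ q1
    obtain ⟨x, hx⟩ : ∃ x : ℝ, x = (y : ℝ) := ⟨_, rfl⟩
    rw [← hx] at g1 q2 q3 k1 k2 ⊢
    have hx0 : 0 < x := by linarith
    have he : (0 : ℝ) < exp 1 := exp_pos 1
    obtain ⟨h, hh⟩ : ∃ h : ℝ, h = log (a : ℝ) := ⟨_, rfl⟩
    rw [← hh] at q2 q3 ⊢
    have hh2 : exp 2 ≤ h := by linarith
    have hexp2 : (0:ℝ) < exp 2 := exp_pos 2
    have hh0 : 0 < h := by linarith
    set h' := (1 + 6 * ε) * x ^ 2 / exp 1 with hh'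
    have hh'0 : 0 < h' := by positivity
    have hanti := Real.log_div_sqrt_antitoneOn (show h ∈ {x | exp 2 ≤ x} from hh2)
      (show h' ∈ {x | exp 2 ≤ x} from hh2.trans q3) q3
    simp only at hanti
    have hlogh : 0 < log h := log_pos (by linarith [add_one_le_exp (2 : ℝ)])
    have hlogh' : 0 < log h' := log_pos (by linarith [add_one_le_exp (2 : ℝ)])
    have hsq : 0 < √h := Real.sqrt_pos.2 hh0
    have hsq' : 0 < √h' := Real.sqrt_pos.2 hh'0
    have hmono : √h / log h ≤ √h' / log h' := by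
      rw [div_le_div_iff₀ hsq' hsq] at hanti
      rw [div_le_div_iff₀ hlogh hlogh']
      linarith
    have hsq'' : √h' = √(1 + 6 * ε) / √(exp 1) * x := by
      rw [hh', Real.sqrt_div (by positivity), Real.sqrt_mul (by positivity), Real.sqrt_sq hx0.le]
      ring
    have hlog'' : 2 * log x - 1 ≤ log h' := by
      rw [hh', Real.log_div (by positivity) he.ne', Real.log_mul (by positivity) (by positivity),
        Real.log_pow, Real.log_exp]
      have : 0 ≤ log (1 + 6 * ε) := log_nonneg (by linarith)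
      push_cast
      linarith
    have hLx : 1 ≤ log x := by
      rw [Real.le_log_iff_exp_le hx0]
      have := Real.exp_one_lt_d9
      linarith
    have hL1 : 0 < 2 * log x - 1 := by linarith
    have hX0 : 0 < x / log x := by positivity
    calc K * √h / log h ≤ K' * √h / log h := by
          refine div_le_div_of_nonneg_right (mul_le_mul_of_nonneg_right hKK hsq.le) hlogh.le
      _ = K' * (√h / log h) := by ring
      _ ≤ K' * (√h' / log h') := mul_le_mul_of_nonneg_left hmono hK0.le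
      _ ≤ K' * (√h' / (2 * log x - 1)) := by
          refine mul_le_mul_of_nonneg_left ?_ hK0.le
          exact div_le_div_of_nonneg_left hsq'.le hL1 hlog''
      _ = (K' * √(1 + 6 * ε) / √(exp 1) * (log x / (2 * log x - 1))) * (x / log x) := by
          rw [hsq'']
          have : 0 < log x := by linarith
          field_simp
      _ < (2 - 6 * ε) * (x / log x) := mul_lt_mul_of_pos_right g1 hX0

end Pool.Agent.J6H13.ABC
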