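import Pool.Agent.J6H13.ABC.Logistic

/-!
Discretization of the logistic law on `w ℤ`.
-/

set_option autoImplicit false

open Real Filter Topology Set

namespace Pool.Agent.J6H13.ABC

/-- antiderivative of `e^{-U} U` -/
noncomputable def G (t : ℝ) : ℝ :=
  sg t * log (1 + exp (-t)) - sg (-t) * log (1 + exp t) + 2 * sg t

lemma hasDerivAt_sg_neg (t : ℝ) : HasDerivAt (fun t => sg (-t)) (- exp (- U t)) t := by
  have h : HasDerivAt (fun t => 1 - sg t) (- exp (-U t)) t := by
    simpa using (hasDerivAt_sg t).const_sub 1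
  have h2 : (fun t => 1 - sg t) = fun t => sg (-t) := by funext t; exact one_sub_sg t
  rw [h2] at h
  exact h

lemma hasDerivAt_G (t : ℝ) : HasDerivAt G (exp (- U t) * U t) t := by
  have h1 := hasDerivAt_sg t
  have h2 : HasDerivAt (fun t : ℝ => log (1 + exp (-t))) (-sg (-t)) t := by
    have h := (hasDerivAt_log2 t).neg
    have h' : (-fun t : ℝ => - log (1 + exp (-t))) = fun t : ℝ => log (1 + exp (-t)) := by
      funext x; simp only [Pi.neg_apply, neg_neg]
    rw [h'] at h
    exact h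
  have h3 := hasDerivAt_sg_neg t
  have h4 := hasDerivAt_log1 t
  have h5 := ((h1.mul h2).sub (h3.mul h4)).add (h1.const_mul 2)
  have h6 : (((sg * fun t : ℝ => log (1 + exp (-t))) - ((fun t => sg (-t)) * fun t : ℝ => log (1 + exp t)))
      + fun y => 2 * sg y) = G := by
    funext x
    simp only [Pi.sub_apply, Pi.add_apply, Pi.mul_apply, G]
  rw [h6] at h5
  refine h5.congr_deriv ?_
  rw [← sg_mul]
  unfold U
  ring

lemma G_neg (t : ℝ) : G (-t) = 2 - G t := by
  unfold G
  rw [neg_neg]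
  have := one_sub_sg t
  rw [← this]
  ring

lemma G_tendsto : Tendsto G atTop (𝓝 2) := by
  have h1 : Tendsto (fun t : ℝ => 1 + exp (-t)) atTop (𝓝 (1 + 0)) :=
    (tendsto_const_nhds).add (tendsto_exp_neg_atTop_nhds_zero)
  rw [add_zero] at h1
  have h2 : Tendsto (fun t : ℝ => log (1 + exp (-t))) atTop (𝓝 0) := by
    simpa using (h1.log one_ne_zero)
  have h3 : Tendsto sg atTop (𝓝 1) := by
    have h2 := h1.inv₀ one_ne_zero
    have : sg = fun t : ℝ => (1 + exp (-t))⁻¹ := by funext t; simp [sg]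
    rw [this]; simpa using h2
  have h4 : Tendsto (fun t : ℝ => sg (-t) * log (1 + exp t)) atTop (𝓝 0) := by
    have h5 : Tendsto (fun t : ℝ => 1 + exp t) atTop atTop :=
      tendsto_atTop_add_const_left _ _ tendsto_exp_atTop
    have h6 : Tendsto (fun u : ℝ => log u / u) atTop (𝓝 0) := by
      have := Real.isLittleO_log_id_atTop
      simpa using this.tendsto_div_nhds_zero
    refine (h6.comp h5).congr fun t => ?_
    simp only [Function.comp, sg, neg_neg]
    ring
  have := ((h3.mul h2).sub h4).add (h3.const_mul 2)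
  have h7 : (1 * 0 - 0 + 2 * 1 : ℝ) = 2 := by norm_num
  rw [h7] at this
  exact this

/-- the mass of a cell -/
lemma cell_mass {w : ℝ} (hw : 0 < w) (c : ℝ) :
    0 ≤ sg (c + w / 2) - sg (c - w / 2) ∧
    sg (c + w / 2) - sg (c - w / 2) ≤ w * exp (w / 2) * exp (- U c) ∧
    |G (c + w / 2) - G (c - w / 2) - (sg (c + w / 2) - sg (c - w / 2)) * U c| ≤
      (w / 2) * (sg (c + w / 2) - sg (c - w / 2)) := by
  have hab : c - w / 2 < c + w / 2 := by linarith
  have hcs : ContinuousOn sg (Icc (c - w / 2) (c + w / 2)) :=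
    fun x _ => (hasDerivAt_sg x).continuousAt.continuousWithinAt
  have hcG : ContinuousOn G (Icc (c - w / 2) (c + w / 2)) :=
    fun x _ => (hasDerivAt_G x).continuousAt.continuousWithinAt
  obtain ⟨x, hx, hx2⟩ := exists_hasDerivAt_eq_slope sg (fun t => exp (- U t)) hab hcs
    (fun x _ => hasDerivAt_sg x)
  have hx3 : sg (c + w / 2) - sg (c - w / 2) = w * exp (- U x) := by
    rw [eq_div_iff (by linarith)] at hx2
    rw [← hx2]; ring
  have hpos : 0 ≤ sg (c + w / 2) - sg (c - w / 2) := by rw [hx3]; positivity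
  have hU : |U x - U c| ≤ w / 2 := by
    refine (U_lip x c).trans ?_
    rw [abs_le]
    exact ⟨by linarith [hx.1], by linarith [hx.2]⟩
  refine ⟨hpos, ?_, ?_⟩
  · rw [hx3, mul_assoc, ← exp_add]
    refine mul_le_mul_of_nonneg_left (exp_le_exp.2 ?_) hw.le
    have := (abs_le.1 hU).1
    linarith
  · obtain ⟨y, hy, hy2⟩ := exists_ratio_hasDerivAt_eq_ratio_slope G (fun t => exp (- U t) * U t) hab hcG
      (fun x _ => hasDerivAt_G x) sg (fun t => exp (- U t)) hcs (fun x _ => hasDerivAt_sg x)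
    have hy3 : G (c + w / 2) - G (c - w / 2) = (sg (c + w / 2) - sg (c - w / 2)) * U y := by
      have he := exp_pos (- U y)
      have : ((sg (c + w / 2) - sg (c - w / 2)) * U y) * exp (- U y) =
          (G (c + w / 2) - G (c - w / 2)) * exp (- U y) := by rw [← hy2]; ring
      exact (mul_right_cancel₀ he.ne' this).symm
    have hUy : |U y - U c| ≤ w / 2 := by
      refine (U_lip y c).trans ?_
      rw [abs_le]
      exact ⟨by linarith [hy.1], by linarith [hy.2]⟩
    rw [hy3, ← mul_sub, abs_mul, abs_of_nonneg hpos, mul_comm]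
    exact mul_le_mul_of_nonneg_right hUy hpos

/-- discretization of the logistic law -/
lemma one_dim {ε : ℝ} (hε : 0 < ε) (hε1 : ε ≤ 1) : ∃ C w₀ : ℝ, 0 < C ∧ 0 < w₀ ∧ w₀ ≤ 1 ∧
    ∀ w : ℝ, 0 < w → w ≤ w₀ → ∃ (X : Finset ℤ) (μ : ℤ → ℝ), (∀ x ∈ X, 0 ≤ μ x) ∧
      ∑ x ∈ X, μ x = 1 ∧ |∑ x ∈ X, μ x * U (x * w) - 2| ≤ ε ∧
      (∀ x ∈ X, μ x ≤ w * exp ε * exp (- U (x * w))) ∧ (∀ x ∈ X, |(x : ℝ)| * w ≤ C) := by
  have hs : Tendsto (fun t => sg t - sg (-t)) atTop (𝓝 1) := by
    have h1 : Tendsto (fun t : ℝ => 1 + exp (-t)) atTop (𝓝 (1 + 0)) :=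
      (tendsto_const_nhds).add (tendsto_exp_neg_atTop_nhds_zero)
    rw [add_zero] at h1
    have h3 : Tendsto sg atTop (𝓝 1) := by
      have h2 := h1.inv₀ one_ne_zero
      have : sg = fun t : ℝ => (1 + exp (-t))⁻¹ := by funext t; simp [sg]
      rw [this]; simpa using h2
    have h4 : (fun t => sg t - sg (-t)) = fun t => 2 * sg t - 1 := by
      funext t; rw [← one_sub_sg]; ring
    rw [h4]
    have := (h3.const_mul 2).sub_const 1
    convert this using 2
    norm_num
  have hG : Tendsto (fun t => G t - G (-t)) atTop (𝓝 2) := by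
    have h4 : (fun t => G t - G (-t)) = fun t => 2 * G t - 2 := by
      funext t; rw [G_neg]; ring
    rw [h4]
    have := (G_tendsto.const_mul 2).sub_const 2
    convert this using 2
    norm_num
  have e1 : ∀ᶠ R in atTop, 1 - ε / 8 < sg R - sg (-R) := hs.eventually_const_lt (by linarith)
  have e2 : ∀ᶠ R in atTop, 2 - ε / 8 < G R - G (-R) := hG.eventually_const_lt (by linarith)
  have e3 : ∀ᶠ R in atTop, G R - G (-R) < 2 + ε / 8 := hG.eventually_lt_const (by linarith)
  obtain ⟨R0, hR0⟩ := (e1.and (e2.and (e3.and (eventually_gt_atTop 0)))).exists_forall_of_atTop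
  have hR0pos : 0 < R0 := (hR0 R0 le_rfl).2.2.2
  refine ⟨R0 + 1, ε / 8, by linarith, by linarith, by linarith, fun w hw hw1 => ?_⟩
  obtain ⟨M, hM⟩ : ∃ M : ℕ, M = ⌈R0 / w⌉₊ := ⟨_, rfl⟩
  have hM1 : R0 ≤ M * w := by
    have : R0 / w ≤ M := by rw [hM]; exact Nat.le_ceil _
    rwa [div_le_iff₀ hw] at this
  have hM2 : M * w ≤ R0 + w := by
    have : (M : ℝ) < R0 / w + 1 := by rw [hM]; exact Nat.ceil_lt_add_one (by positivity)
    have h2 : (M : ℝ) * w < (R0 / w + 1) * w := mul_lt_mul_of_pos_right this hw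
    have h3 : (R0 / w + 1) * w = R0 + w := by field_simp
    linarith
  set R := (M + 1 / 2 : ℝ) * w with hR
  have hRR : R0 ≤ R := by rw [hR]; nlinarith
  obtain ⟨z1, z2, z3, -⟩ := hR0 R hRR
  set Z := sg R - sg (-R) with hZ
  have hZ1 : Z ≤ 1 := by
    have := sg_lt_one R; have := sg_pos (-R); rw [hZ]; linarith
  have hZpos : 0 < Z := by linarith
  -- the map
  let e : ℕ ↪ ℤ := ⟨fun k => (k : ℤ) - M, fun a b h => by simpa using h⟩
  let p : ℤ → ℝ := fun x => sg (x * w + w / 2) - sg (x * w - w / 2)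
  have he : ∀ k : ℕ, ((e k : ℤ) : ℝ) = (k : ℝ) - M := by
    intro k; show (((k : ℤ) - M : ℤ) : ℝ) = _; push_cast; ring
  have tele : ∀ g : ℝ → ℝ, ∑ x ∈ (Finset.range (2 * M + 1)).map e,
      (g (x * w + w / 2) - g (x * w - w / 2)) = g R - g (-R) := by
    intro g
    rw [Finset.sum_map]
    have h := Finset.sum_range_sub (fun k : ℕ => g (((k : ℝ) - M - 1 / 2) * w)) (2 * M + 1)
    have hr : g (((2 * M + 1 : ℕ) - M - 1 / 2 : ℝ) * w) - g (((0 : ℕ) - M - 1 / 2 : ℝ) * w) =
        g R - g (-R) := by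
      rw [hR]; push_cast; congr 2 <;> ring
    rw [hr] at h
    rw [← h]
    refine Finset.sum_congr rfl fun k _ => ?_
    rw [he]
    congr 2
    · push_cast; ring
    · ring
  have hsum : ∑ x ∈ (Finset.range (2 * M + 1)).map e, p x = Z := tele sg
  have hsumG := tele G
  have hcell := fun x : ℤ => cell_mass hw ((x : ℝ) * w)
  have hmean : |∑ x ∈ (Finset.range (2 * M + 1)).map e, p x * U (x * w) - (G R - G (-R))| ≤ w / 2 := by
    rw [← hsumG, ← Finset.sum_sub_distrib]
    refine (Finset.abs_sum_le_sum_abs _ _).trans ?_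
    calc _ ≤ ∑ x ∈ (Finset.range (2 * M + 1)).map e, (w / 2) * p x := by
          refine Finset.sum_le_sum fun x _ => ?_
          rw [abs_sub_comm]
          exact (hcell x).2.2
      _ = (w / 2) * Z := by rw [← Finset.mul_sum, hsum]
      _ ≤ w / 2 := by nlinarith
  refine ⟨(Finset.range (2 * M + 1)).map e, fun x => p x / Z, ?_, ?_, ?_, ?_, ?_⟩
  · intro x _
    exact div_nonneg (hcell x).1 hZpos.le
  · rw [← Finset.sum_div, hsum, div_self hZpos.ne']
  · have h1 : ∑ x ∈ (Finset.range (2 * M + 1)).map e, p x / Z * U (x * w) =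
        (∑ x ∈ (Finset.range (2 * M + 1)).map e, p x * U (x * w)) / Z := by
      rw [Finset.sum_div]
      exact Finset.sum_congr rfl fun x _ => by ring
    rw [h1]
    set S := ∑ x ∈ (Finset.range (2 * M + 1)).map e, p x * U (x * w)
    obtain ⟨m1, m2⟩ := abs_le.1 hmean
    rw [abs_le]
    constructor
    · have : 2 - ε ≤ S / Z := by
        rw [le_div_iff₀ hZpos]
        nlinarith
      linarith
    · have : S / Z ≤ 2 + ε := by
        rw [div_le_iff₀ hZpos]
        nlinarith
      linarith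
  · intro x _
    rw [div_le_iff₀ hZpos]
    refine (hcell x).2.1.trans ?_
    have h1 : exp (w / 2) ≤ exp ε * Z := by
      have h2 : exp (w / 2) * exp (ε / 2) ≤ exp ε := by
        rw [← exp_add]; exact exp_le_exp.2 (by linarith)
      have h3 : 1 ≤ exp (ε / 2) * Z := by
        have h4 : 1 + ε / 2 ≤ exp (ε / 2) := by linarith [add_one_le_exp (ε / 2)]
        nlinarith
      have h4 := exp_pos (w / 2)
      calc exp (w / 2) ≤ exp (w / 2) * (exp (ε / 2) * Z) := by nlinarith
        _ = (exp (w / 2) * exp (ε / 2)) * Z := by ring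
        _ ≤ exp ε * Z := mul_le_mul_of_nonneg_right h2 hZpos.le
    have h5 := exp_pos (- U ((x : ℝ) * w))
    calc w * exp (w / 2) * exp (- U ((x : ℝ) * w))
        ≤ w * (exp ε * Z) * exp (- U ((x : ℝ) * w)) := by
          refine mul_le_mul_of_nonneg_right (mul_le_mul_of_nonneg_left h1 hw.le) h5.le
      _ = w * exp ε * exp (- U ((x : ℝ) * w)) * Z := by ring
  · intro x hx
    rw [Finset.mem_map] at hx
    obtain ⟨k, hk, rfl⟩ := hx
    rw [Finset.mem_range] at hk
    rw [he]
    have hk' : (k : ℝ) ≤ 2 * M := by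
      have : k ≤ 2 * M := by omega
      exact_mod_cast this
    have : |(k : ℝ) - M| ≤ M := by
      rw [abs_le]; constructor
      · have : (0:ℝ) ≤ k := Nat.cast_nonneg _
        linarith
      · linarith
    calc |(k : ℝ) - M| * w ≤ M * w := mul_le_mul_of_nonneg_right this hw.le
      _ ≤ R0 + 1 := by linarith

end Pool.Agent.J6H13.ABC
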