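import Pool.Agent.J6H13.ABC.Logistic

/-!
`∑_{i,j} (t_i - t_j)^+ ≤ N ∑ U (t_i) - N^2` for `N` real numbers.
-/

set_option autoImplicit false

open Real MeasureTheory Filter Topology Set

namespace Pool.Agent.J6H13.ABC

lemma tend_log2 : Tendsto (fun t : ℝ => - log (1 + exp (-t))) atTop (𝓝 0) := by
  have h1 : Tendsto (fun t : ℝ => 1 + exp (-t)) atTop (𝓝 (1 + 0)) :=
    (tendsto_const_nhds).add (tendsto_exp_neg_atTop_nhds_zero)
  rw [add_zero] at h1
  have h2 := (h1.log one_ne_zero).neg
  simpa using h2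

lemma int_right (a : ℝ) : IntegrableOn (fun x => sg (-x)) (Ioi a) ∧
    ∫ x in Ioi a, sg (-x) = log (1 + exp (-a)) := by
  have hd : ∀ x ∈ Ici a, HasDerivAt (fun t : ℝ => - log (1 + exp (-t))) (sg (-x)) x :=
    fun x _ => hasDerivAt_log2 x
  have hp : ∀ x ∈ Ioi a, 0 ≤ sg (-x) := fun x _ => (sg_pos _).le
  refine ⟨integrableOn_Ioi_deriv_of_nonneg' hd hp tend_log2, ?_⟩
  rw [integral_Ioi_of_hasDerivAt_of_nonneg' hd hp tend_log2]
  ring

lemma int_left (a : ℝ) : IntegrableOn (fun x => sg x) (Iio a) ∧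
    ∫ x in Iio a, sg x = log (1 + exp a) := by
  obtain ⟨h1, h2⟩ := int_right (-a)
  have h3 : IntegrableOn (fun x => sg (-(-x))) (Iio (- (-a))) := by
    have := h1.comp_neg_Iio
    simpa using this
  constructor
  · simpa using h3
  · rw [← integral_Iic_eq_integral_Iio]
    have := integral_comp_neg_Iic a (fun x => sg (-x))
    simp only [neg_neg] at this
    rw [this, h2, neg_neg]

/-- indicator of `x < t` -/
noncomputable def Ind (t x : ℝ) : ℝ := (Iio t).indicator (fun _ => (1:ℝ)) x

lemma Ind_of_lt {t x : ℝ} (h : x < t) : Ind t x = 1 := by simp [Ind, h]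
lemma Ind_of_le {t x : ℝ} (h : t ≤ x) : Ind t x = 0 := by simp [Ind, h]

lemma ind_pair (a b : ℝ) : Integrable (fun x => Ind a x * (1 - Ind b x)) ∧
    ∫ x, Ind a x * (1 - Ind b x) = max (a - b) 0 := by
  have h : (fun x => Ind a x * (1 - Ind b x)) = (Ico b a).indicator (fun _ => (1:ℝ)) := by
    funext x
    by_cases h1 : x < a
    · by_cases h2 : x < b
      · rw [Ind_of_lt h1, Ind_of_lt h2, indicator_of_notMem (by simp [h2])]; simp
      · push Not at h2
        rw [Ind_of_lt h1, Ind_of_le h2, indicator_of_mem (by simp [h1, h2])]; simp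
    · push Not at h1
      rw [Ind_of_le h1, indicator_of_notMem (by simp [h1])]; simp
  rw [h]
  constructor
  · rw [integrable_indicator_iff measurableSet_Ico]
    exact integrableOn_const (by simp)
  · rw [integral_indicator measurableSet_Ico]
    simp only [integral_const, MeasurableSet.univ, measureReal_restrict_apply, univ_inter,
      smul_eq_mul, mul_one]
    rw [Real.volume_real_Ico]

lemma ind_U (a : ℝ) : Integrable (fun x => Ind a x * sg x + (1 - Ind a x) * sg (-x)) ∧
    ∫ x, (Ind a x * sg x + (1 - Ind a x) * sg (-x)) = U a := by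
  have h : (fun x => Ind a x * sg x + (1 - Ind a x) * sg (-x)) =
      (fun x => (Iio a).indicator sg x + (Ici a).indicator (fun x => sg (-x)) x) := by
    funext x
    by_cases h1 : x < a
    · rw [Ind_of_lt h1, indicator_of_mem (by simpa using h1), indicator_of_notMem (by simpa using h1)]
      simp
    · push Not at h1
      rw [Ind_of_le h1, indicator_of_notMem (by simpa using h1), indicator_of_mem (by simpa using h1)]
      simp
  obtain ⟨l1, l2⟩ := int_left a
  obtain ⟨r1, r2⟩ := int_right a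
  have r1' : IntegrableOn (fun x => sg (-x)) (Ici a) := by
    rw [integrableOn_Ici_iff_integrableOn_Ioi]; exact r1
  have i1 : Integrable ((Iio a).indicator sg) := (integrable_indicator_iff measurableSet_Iio).2 l1
  have i2 : Integrable ((Ici a).indicator (fun x => sg (-x))) :=
    (integrable_indicator_iff measurableSet_Ici).2 r1'
  rw [h]
  constructor
  · exact i1.add i2
  · rw [integral_add i1 i2, integral_indicator measurableSet_Iio, integral_indicator measurableSet_Ici,
      l2, integral_Ici_eq_integral_Ioi, r2]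
    rfl

lemma tend_sg_top : Tendsto sg atTop (𝓝 1) := by
  have h1 : Tendsto (fun t : ℝ => 1 + exp (-t)) atTop (𝓝 (1 + 0)) :=
    (tendsto_const_nhds).add (tendsto_exp_neg_atTop_nhds_zero)
  rw [add_zero] at h1
  have h2 := h1.inv₀ one_ne_zero
  have : sg = fun t : ℝ => (1 + exp (-t))⁻¹ := by funext t; simp [sg]
  rw [this]; simpa using h2

lemma tend_sg_bot : Tendsto sg atBot (𝓝 0) := by
  have h1 : Tendsto (fun t : ℝ => 1 - sg (-t)) atBot (𝓝 (1 - 1)) :=
    (tendsto_const_nhds).sub (tend_sg_top.comp tendsto_neg_atBot_atTop)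
  rw [sub_self] at h1
  refine h1.congr fun t => ?_
  have := one_sub_sg (-t)
  rw [neg_neg] at this
  exact this

lemma ind_one : Integrable (fun x => sg x * sg (-x)) ∧ ∫ x, sg x * sg (-x) = 1 := by
  have hc : Continuous sg := continuous_iff_continuousAt.2 fun x => (hasDerivAt_sg x).continuousAt
  have hi : Integrable (fun x => sg x * sg (-x)) := by
    refine (ind_U 0).1.mono' ((hc.mul (hc.comp continuous_neg)).aestronglyMeasurable) ?_
    refine Eventually.of_forall fun x => ?_
    have a1 := sg_pos x; have a2 := sg_pos (-x)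
    have a3 := sg_lt_one x; have a4 := sg_lt_one (-x)
    rw [Real.norm_eq_abs, abs_of_pos (by positivity)]
    by_cases h1 : x < 0
    · rw [Ind_of_lt h1]; nlinarith
    · push Not at h1
      rw [Ind_of_le h1]; nlinarith
  refine ⟨hi, ?_⟩
  have hd : ∀ x, HasDerivAt sg (sg x * sg (-x)) x := by
    intro x; rw [sg_mul]; exact hasDerivAt_sg x
  rw [integral_of_hasDerivAt_of_tendsto hd hi tend_sg_bot tend_sg_top]
  norm_num

/-- the pair inequality -/
lemma pair_aux {ι : Type*} (F : Finset ι) (t : ι → ℝ) :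
    ∑ i ∈ F, ∑ j ∈ F, max (t i - t j) 0 ≤ F.card * ∑ i ∈ F, U (t i) - (F.card : ℝ) ^ 2 := by
  have hL : ∑ i ∈ F, ∑ j ∈ F, max (t i - t j) 0 =
      ∫ x, ∑ i ∈ F, ∑ j ∈ F, Ind (t i) x * (1 - Ind (t j) x) := by
    rw [integral_finsetSum]
    · refine Finset.sum_congr rfl fun i _ => ?_
      rw [integral_finsetSum]
      · exact Finset.sum_congr rfl fun j _ => (ind_pair _ _).2.symm
      · exact fun j _ => (ind_pair _ _).1
    · exact fun i _ => integrable_finsetSum _ fun j _ => (ind_pair _ _).1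
  have hR : (F.card : ℝ) * ∑ i ∈ F, U (t i) - (F.card : ℝ) ^ 2 =
      ∫ x, ((F.card : ℝ) * ∑ i ∈ F, (Ind (t i) x * sg x + (1 - Ind (t i) x) * sg (-x)) -
        (F.card : ℝ) ^ 2 * (sg x * sg (-x))) := by
    rw [integral_sub, integral_const_mul, integral_const_mul, ind_one.2, integral_finsetSum]
    · simp only [(ind_U _).2, mul_one]
    · exact fun i _ => (ind_U _).1
    · exact (integrable_finsetSum _ fun i _ => (ind_U _).1).const_mul _
    · exact ind_one.1.const_mul _
  rw [hL, hR]
  refine integral_mono ?_ ?_ ?_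
  · exact integrable_finsetSum _ fun i _ => integrable_finsetSum _ fun j _ => (ind_pair _ _).1
  · exact ((integrable_finsetSum _ fun i _ => (ind_U _).1).const_mul _).sub (ind_one.1.const_mul _)
  · intro x
    simp only
    have h1 : ∑ i ∈ F, ∑ j ∈ F, Ind (t i) x * (1 - Ind (t j) x) =
        (∑ i ∈ F, Ind (t i) x) * (F.card - ∑ i ∈ F, Ind (t i) x) := by
      rw [← Finset.sum_mul_sum, Finset.sum_sub_distrib]
      simp
    have h2 : ∑ i ∈ F, (Ind (t i) x * sg x + (1 - Ind (t i) x) * sg (-x)) =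
        (∑ i ∈ F, Ind (t i) x) * sg x + (F.card - ∑ i ∈ F, Ind (t i) x) * sg (-x) := by
      rw [Finset.sum_add_distrib, ← Finset.sum_mul, ← Finset.sum_mul, Finset.sum_sub_distrib]
      simp
    rw [h1, h2]
    have h3 := one_sub_sg x
    rw [← h3]
    nlinarith [sq_nonneg ((∑ i ∈ F, Ind (t i) x) - F.card * (1 - sg x))]

/-- the pair inequality, symmetric form -/
lemma pair_ineq {ι : Type*} (F : Finset ι) (t : ι → ℝ) :
    ∑ i ∈ F, ∑ j ∈ F, |t i - t j| ≤ 2 * F.card * ∑ i ∈ F, U (t i) - 2 * (F.card : ℝ) ^ 2 := by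
  have h := pair_aux F t
  have h1 : ∑ i ∈ F, ∑ j ∈ F, |t i - t j| = ∑ i ∈ F, ∑ j ∈ F, max (t i - t j) 0 +
      ∑ i ∈ F, ∑ j ∈ F, max (t j - t i) 0 := by
    rw [← Finset.sum_add_distrib]
    refine Finset.sum_congr rfl fun i _ => ?_
    rw [← Finset.sum_add_distrib]
    refine Finset.sum_congr rfl fun j _ => ?_
    rcases le_total (t i) (t j) with h | h
    · rw [abs_of_nonpos (by linarith), max_eq_right (by linarith), max_eq_left (by linarith)]; ring
    · rw [abs_of_nonneg (by linarith), max_eq_left (by linarith), max_eq_right (by linarith)]; ring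
  have h2 : ∑ i ∈ F, ∑ j ∈ F, max (t j - t i) 0 = ∑ i ∈ F, ∑ j ∈ F, max (t i - t j) 0 :=
    Finset.sum_comm
  rw [h1, h2]
  linarith

end Pool.Agent.J6H13.ABC
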