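import Pool.Agent.J6H13.ABC.OneDim

/-!
The number of typical integer vectors: a product of discretized logistic laws.
-/

set_option autoImplicit false

open Real Filter Topology

namespace Pool.Agent.J6H13.ABC

/-- second moment of a sum of independent centered variables (finite product space) -/
lemma second_moment {ι : Type*} [Fintype ι] [DecidableEq ι] (X : ι → Finset ℤ) (μ Y : ι → ℤ → ℝ)
    (hμ : ∀ i, ∀ x ∈ X i, 0 ≤ μ i x) (h1 : ∀ i, ∑ x ∈ X i, μ i x = 1)
    (h0 : ∀ i, ∑ x ∈ X i, μ i x * Y i x = 0) (D : ℝ) (hD : ∀ i, ∀ x ∈ X i, |Y i x| ≤ D) :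
    ∑ x ∈ Fintype.piFinset X, (∏ i, μ i (x i)) * (∑ i, Y i (x i)) ^ 2 ≤ Fintype.card ι * D ^ 2 := by
  have hexp : ∀ x : ι → ℤ, (∏ i, μ i (x i)) * (∑ i, Y i (x i)) ^ 2 =
      ∑ i, ∑ j, (∏ k, μ k (x k)) * (Y i (x i) * Y j (x j)) := by
    intro x
    rw [sq, Finset.sum_mul_sum, Finset.mul_sum]
    exact Finset.sum_congr rfl fun i _ => Finset.mul_sum _ _ _
  have hsw : ∑ x ∈ Fintype.piFinset X, (∏ i, μ i (x i)) * (∑ i, Y i (x i)) ^ 2 =
      ∑ i, ∑ j, ∑ x ∈ Fintype.piFinset X, (∏ k, μ k (x k)) * (Y i (x i) * Y j (x j)) := by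
    simp only [hexp]
    rw [Finset.sum_comm]
    exact Finset.sum_congr rfl fun i _ => Finset.sum_comm
  rw [hsw]
  have hoff : ∀ i j, i ≠ j →
      ∑ x ∈ Fintype.piFinset X, (∏ k, μ k (x k)) * (Y i (x i) * Y j (x j)) = 0 := by
    intro i j hij
    have h2 : ∀ x : ι → ℤ, (∏ k, μ k (x k)) * (Y i (x i) * Y j (x j)) =
        ∏ k, (μ k (x k) * ((if k = i then Y k (x k) else 1) * (if k = j then Y k (x k) else 1))) := by
      intro x
      rw [Finset.prod_mul_distrib, Finset.prod_mul_distrib]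
      simp
    simp only [h2]
    have h3 := Finset.prod_univ_sum X
      (fun k c => μ k c * ((if k = i then Y k c else 1) * (if k = j then Y k c else 1)))
    rw [← h3]
    refine Finset.prod_eq_zero (Finset.mem_univ i) ?_
    rw [← h0 i]
    exact Finset.sum_congr rfl fun c _ => by simp [hij]
  have hdiag : ∀ i, ∑ x ∈ Fintype.piFinset X, (∏ k, μ k (x k)) * (Y i (x i) * Y i (x i)) ≤ D ^ 2 := by
    intro i
    have hmass : ∑ x ∈ Fintype.piFinset X, (∏ k, μ k (x k)) = 1 := by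
      have h3 := Finset.prod_univ_sum X (fun k c => μ k c)
      rw [← h3]
      exact Finset.prod_eq_one fun k _ => h1 k
    calc _ ≤ ∑ x ∈ Fintype.piFinset X, (∏ k, μ k (x k)) * D ^ 2 := by
          refine Finset.sum_le_sum fun x hx => ?_
          rw [Fintype.mem_piFinset] at hx
          refine mul_le_mul_of_nonneg_left ?_ (Finset.prod_nonneg fun k _ => hμ k _ (hx k))
          have := hD i (x i) (hx i)
          rw [← sq, ← sq_abs]
          exact pow_le_pow_left₀ (abs_nonneg _) this 2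
      _ = D ^ 2 := by rw [← Finset.sum_mul, hmass, one_mul]
  calc _ ≤ ∑ i : ι, D ^ 2 := by
        refine Finset.sum_le_sum fun i _ => ?_
        rw [Finset.sum_eq_single i]
        · exact hdiag i
        · exact fun j _ hj => hoff i j (Ne.symm hj)
        · intro h; exact absurd (Finset.mem_univ i) h
    _ = Fintype.card ι * D ^ 2 := by simp [Finset.card_univ]

/-- many integer vectors with `∑ U (x_i w_i)` about `2 n` -/
lemma prod_count {ε : ℝ} (hε : 0 < ε) (hε1 : ε ≤ 1) : ∃ C w₀ : ℝ, ∃ n₀ : ℕ, 0 < C ∧ 0 < w₀ ∧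
    ∀ (ι : Type) [Fintype ι] [DecidableEq ι] (w : ι → ℝ), (∀ i, 0 < w i) → (∀ i, w i ≤ w₀) →
      n₀ ≤ Fintype.card ι →
      ∃ A : Finset (ι → ℤ), (∀ x ∈ A, ∑ i, U (x i * w i) ≤ (2 + 2 * ε) * Fintype.card ι) ∧
        (∀ x ∈ A, ∀ i, |(x i : ℝ)| * w i ≤ C) ∧
        1 / 2 * exp ((2 - 3 * ε) * Fintype.card ι) ≤ A.card * ∏ i, w i := by
  obtain ⟨C, w₀, hC, hw₀, hw₁, hone⟩ := one_dim hε hε1
  refine ⟨C, w₀, ⌈2 * (C + 5) ^ 2 / ε ^ 2⌉₊ + 1, hC, hw₀, ?_⟩
  intro ι _ _ w hw hww hn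
  choose X μ hμ h1 hmean hden hrange using fun i => hone (w i) (hw i) (hww i)
  set n : ℝ := (Fintype.card ι : ℝ) with hndef
  have hn1 : 2 * (C + 5) ^ 2 / ε ^ 2 ≤ n := by
    have h2 : (⌈2 * (C + 5) ^ 2 / ε ^ 2⌉₊ : ℝ) + 1 ≤ n := by rw [hndef]; exact_mod_cast hn
    have := Nat.le_ceil (2 * (C + 5) ^ 2 / ε ^ 2)
    linarith
  have hnpos : 0 < n := by
    have : (0:ℝ) < 2 * (C + 5) ^ 2 / ε ^ 2 := by positivity
    linarith
  let m : ι → ℝ := fun i => ∑ x ∈ X i, μ i x * U (x * w i)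
  let Y : ι → ℤ → ℝ := fun i x => U (x * w i) - m i
  have hm : ∀ i, |m i - 2| ≤ ε := hmean
  have h0 : ∀ i, ∑ x ∈ X i, μ i x * Y i x = 0 := by
    intro i
    have : ∑ x ∈ X i, μ i x * Y i x = ∑ x ∈ X i, μ i x * U (x * w i) - (∑ x ∈ X i, μ i x) * m i := by
      rw [Finset.sum_mul, ← Finset.sum_sub_distrib]
      exact Finset.sum_congr rfl fun x _ => by simp only [Y]; ring
    rw [this, h1 i]
    simp only [m]; ring
  have hYD : ∀ i, ∀ x ∈ X i, |Y i x| ≤ C + 5 := by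
    intro i x hx
    have a1 := U_le (x * w i)
    have a2 := U_nonneg (x * w i)
    have a3 := hrange i x hx
    rw [abs_mul, abs_of_pos (hw i)] at a1
    obtain ⟨a4, a5⟩ := abs_le.1 (hm i)
    show |U (x * w i) - m i| ≤ C + 5
    rw [abs_le]
    constructor <;> linarith
  have hsm := second_moment X μ Y hμ h1 h0 (C + 5) hYD
  have hmass : ∑ x ∈ Fintype.piFinset X, (∏ k, μ k (x k)) = 1 := by
    have h3 := Finset.prod_univ_sum X (fun k c => μ k c)
    rw [← h3]
    exact Finset.prod_eq_one fun k _ => h1 k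
  have hMnn : ∀ x ∈ Fintype.piFinset X, 0 ≤ ∏ k, μ k (x k) := by
    intro x hx
    rw [Fintype.mem_piFinset] at hx
    exact Finset.prod_nonneg fun k _ => hμ k _ (hx k)
  classical
  let A := (Fintype.piFinset X).filter (fun x => |∑ i, Y i (x i)| ≤ ε * n)
  have hsplit := Finset.sum_filter_add_sum_filter_not (Fintype.piFinset X)
    (fun x => |∑ i, Y i (x i)| ≤ ε * n) (fun x => ∏ k, μ k (x k))
  have hbad : ∑ x ∈ (Fintype.piFinset X).filter (fun x => ¬ |∑ i, Y i (x i)| ≤ ε * n),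
      ∏ k, μ k (x k) ≤ 1 / 2 := by
    have h2 : (ε * n) ^ 2 * ∑ x ∈ (Fintype.piFinset X).filter (fun x => ¬ |∑ i, Y i (x i)| ≤ ε * n),
        ∏ k, μ k (x k) ≤ n * (C + 5) ^ 2 := by
      refine le_trans ?_ hsm
      rw [Finset.mul_sum]
      refine le_trans (Finset.sum_le_sum (f := fun x : ι → ℤ => (ε * n) ^ 2 * ∏ k, μ k (x k))
        (g := fun x : ι → ℤ => (∏ k, μ k (x k)) * (∑ i, Y i (x i)) ^ 2) ?_) ?_
      · intro x hx
        rw [Finset.mem_filter] at hx
        have h5 : ε * n ≤ |∑ i, Y i (x i)| := le_of_lt (not_le.1 hx.2)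
        have h6 : (ε * n) ^ 2 ≤ (∑ i, Y i (x i)) ^ 2 := by
          rw [← sq_abs (∑ i, Y i (x i))]
          exact pow_le_pow_left₀ (by positivity) h5 2
        rw [mul_comm]
        exact mul_le_mul_of_nonneg_left h6 (hMnn x hx.1)
      · exact Finset.sum_le_sum_of_subset_of_nonneg (Finset.filter_subset _ _)
          (fun x hx _ => mul_nonneg (hMnn x hx) (sq_nonneg _))
    have h3 : n * (C + 5) ^ 2 ≤ (ε * n) ^ 2 * (1 / 2) := by
      rw [div_le_iff₀ (by positivity)] at hn1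
      nlinarith
    have h4 : (0:ℝ) < (ε * n) ^ 2 := by positivity
    nlinarith
  have hgood : 1 / 2 ≤ ∑ x ∈ A, ∏ k, μ k (x k) := by
    have : ∑ x ∈ A, ∏ k, μ k (x k) = 1 - ∑ x ∈ (Fintype.piFinset X).filter
        (fun x => ¬ |∑ i, Y i (x i)| ≤ ε * n), ∏ k, μ k (x k) := by
      rw [← hmass, ← hsplit]; simp [A]
    linarith
  have hA : ∀ x ∈ A, (∀ i, x i ∈ X i) ∧ |∑ i, Y i (x i)| ≤ ε * n := by
    intro x hx
    simp only [A, Finset.mem_filter, Fintype.mem_piFinset] at hx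
    exact hx
  have hsumY : ∀ x : ι → ℤ, ∑ i, Y i (x i) = ∑ i, U (x i * w i) - ∑ i, m i := by
    intro x; rw [← Finset.sum_sub_distrib]
  have hmsum : (2 - ε) * n ≤ ∑ i, m i ∧ ∑ i, m i ≤ (2 + ε) * n := by
    constructor
    · have : ∑ i : ι, (2 - ε) ≤ ∑ i, m i := Finset.sum_le_sum fun i _ => by
        have := (abs_le.1 (hm i)).1; linarith
      rw [Finset.sum_const, Finset.card_univ, nsmul_eq_mul, mul_comm] at this
      exact this
    · have : ∑ i, m i ≤ ∑ i : ι, (2 + ε) := Finset.sum_le_sum fun i _ => by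
        have := (abs_le.1 (hm i)).2; linarith
      rw [Finset.sum_const, Finset.card_univ, nsmul_eq_mul, mul_comm] at this
      exact this
  refine ⟨A, ?_, ?_, ?_⟩
  · intro x hx
    have := (abs_le.1 (hA x hx).2).2
    rw [hsumY] at this
    nlinarith [hmsum.2]
  · intro x hx i
    exact hrange i _ ((hA x hx).1 i)
  · have hwp : 0 < ∏ i, w i := Finset.prod_pos fun i _ => hw i
    have hpt : ∀ x ∈ A, ∏ k, μ k (x k) ≤ (∏ i, w i) * exp (-((2 - 3 * ε) * n)) := by
      intro x hx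
      obtain ⟨hx1, hx2⟩ := hA x hx
      have b1 : ∏ k, μ k (x k) ≤ ∏ k, (w k * exp ε * exp (- U (x k * w k))) :=
        Finset.prod_le_prod (fun k _ => hμ k _ (hx1 k)) (fun k _ => hden k _ (hx1 k))
      have b2 : ∏ k, (w k * exp ε * exp (- U (x k * w k))) =
          (∏ k, w k) * exp (ε * n - ∑ k, U (x k * w k)) := by
        rw [Finset.prod_mul_distrib, Finset.prod_mul_distrib, ← Real.exp_sum, ← Real.exp_sum,
          mul_assoc, ← exp_add]
        congr 2
        rw [Finset.sum_neg_distrib, Finset.sum_const, Finset.card_univ, nsmul_eq_mul]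
        ring
      rw [b2] at b1
      refine b1.trans (mul_le_mul_of_nonneg_left (exp_le_exp.2 ?_) hwp.le)
      have := (abs_le.1 hx2).1
      rw [hsumY] at this
      nlinarith [hmsum.1]
    have h5 : ∑ x ∈ A, ∏ k, μ k (x k) ≤ A.card * ((∏ i, w i) * exp (-((2 - 3 * ε) * n))) := by
      refine (Finset.sum_le_card_nsmul _ _ _ hpt).trans ?_
      rw [nsmul_eq_mul]
    have h6 := hgood.trans h5
    have h7 := exp_pos ((2 - 3 * ε) * n)
    have h8 : exp (-((2 - 3 * ε) * n)) * exp ((2 - 3 * ε) * n) = 1 := by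
      rw [← exp_add]; simp
    calc 1 / 2 * exp ((2 - 3 * ε) * n)
        ≤ (A.card * ((∏ i, w i) * exp (-((2 - 3 * ε) * n)))) * exp ((2 - 3 * ε) * n) :=
          mul_le_mul_of_nonneg_right h6 h7.le
      _ = A.card * (∏ i, w i) * (exp (-((2 - 3 * ε) * n)) * exp ((2 - 3 * ε) * n)) := by ring
      _ = A.card * ∏ i, w i := by rw [h8, mul_one]

end Pool.Agent.J6H13.ABC
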