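import Pool.Agent.J6H13.ABC.Prod
import Pool.Agent.J6H13.ABC.Pair

/-!
From short exponent vectors to abc-triples, and the pigeonhole argument.
-/

set_option autoImplicit false

open Real Filter Topology

namespace Pool.Agent.J6H13.ABC

section vec

variable {ι : Type} [Fintype ι]

/-- the numerator of the rational number with exponents `d` -/
def num (q : ι → ℕ) (d : ι → ℤ) : ℕ := ∏ i, q i ^ (d i).toNat

lemma num_pos {q : ι → ℕ} (hq : ∀ i, (q i).Prime) (d : ι → ℤ) : 0 < num q d :=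
  Finset.prod_pos fun i _ => pow_pos (hq i).pos _

lemma log_num {q : ι → ℕ} (hq : ∀ i, (q i).Prime) (d : ι → ℤ) :
    log (num q d) = ∑ i, ((d i).toNat : ℝ) * log (q i) := by
  unfold num
  push_cast
  rw [Real.log_prod (fun i _ => by have := (hq i).pos; positivity)]
  exact Finset.sum_congr rfl fun i _ => by rw [Real.log_pow]

lemma num_coprime {q : ι → ℕ} (hq : ∀ i, (q i).Prime) (hinj : Function.Injective q) (d : ι → ℤ) :
    Nat.Coprime (num q d) (num q (-d)) := by
  unfold num
  classical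
  refine Nat.Coprime.prod_left fun i _ => Nat.Coprime.prod_right fun j _ => ?_
  by_cases hij : i = j
  · subst hij
    rcases le_total (d i) 0 with h | h
    · rw [Int.toNat_of_nonpos h]; simp
    · have : (-d) i ≤ 0 := by simpa using h
      rw [Int.toNat_of_nonpos this]; simp
  · exact Nat.Coprime.pow _ _ ((Nat.coprime_primes (hq i) (hq j)).2 fun h => hij (hinj h))

lemma prime_dvd_num {q : ι → ℕ} (hq : ∀ i, (q i).Prime) (d : ι → ℤ) {p : ℕ} (hp : p.Prime)
    (h : p ∣ num q d) : ∃ i, p = q i := by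
  unfold num at h
  rw [(Nat.prime_iff.1 hp).dvd_finsetProd_iff] at h
  obtain ⟨i, -, hi⟩ := h
  exact ⟨i, (Nat.prime_dvd_prime_iff_eq hp (hq i)).1 (hp.dvd_of_dvd_pow hi)⟩

/-- class of the exponent vector in the units modulo `2 ^ m` -/
noncomputable def cls {m : ℕ} (u : ι → (ZMod (2 ^ m))ˣ) (x : ι → ℤ) : (ZMod (2 ^ m))ˣ :=
  ∏ i, u i ^ x i

lemma cls_sub {m : ℕ} (u : ι → (ZMod (2 ^ m))ˣ) (x y : ι → ℤ) :
    cls u (x - y) = cls u x / cls u y := by
  unfold cls
  rw [← Finset.prod_div_distrib]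
  exact Finset.prod_congr rfl fun i _ => by rw [Pi.sub_apply, zpow_sub, div_eq_mul_inv]

lemma num_eq_of_cls {m : ℕ} {q : ι → ℕ} (u : ι → (ZMod (2 ^ m))ˣ) (hu : ∀ i, (u i : ZMod (2 ^ m)) = q i)
    (d : ι → ℤ) (h : cls u d = 1) : ((num q d : ℕ) : ZMod (2 ^ m)) = (num q (-d) : ℕ) := by
  have h1 : ∀ e : ι → ℤ, ((num q e : ℕ) : ZMod (2 ^ m)) =
      ((∏ i, u i ^ (e i).toNat : (ZMod (2 ^ m))ˣ) : ZMod (2 ^ m)) := by
    intro e
    unfold num
    push_cast
    exact Finset.prod_congr rfl fun i _ => by rw [hu]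
  rw [h1, h1]
  congr 1
  have h2 : cls u d = (∏ i, u i ^ (d i).toNat) / (∏ i, u i ^ ((-d) i).toNat) := by
    unfold cls
    rw [← Finset.prod_div_distrib]
    refine Finset.prod_congr rfl fun i _ => ?_
    have h3 := Int.toNat_sub_toNat_neg (d i)
    conv_lhs => rw [← h3]
    rw [zpow_sub, zpow_natCast, zpow_natCast, div_eq_mul_inv]
    rfl
  rw [h] at h2
  exact (div_eq_one.1 h2.symm)

/-- a short exponent vector in the kernel gives an abc-triple -/
lemma triple_of_vec {m : ℕ} {q : ι → ℕ} (hq : ∀ i, (q i).Prime) (hinj : Function.Injective q)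
    (u : ι → (ZMod (2 ^ m))ˣ) (hu : ∀ i, (u i : ZMod (2 ^ m)) = q i) (d : ι → ℤ) (hd : d ≠ 0)
    (h : cls u d = 1) (h1 : |∑ i, (d i : ℝ) * log (q i)| ≤ 1) {D : ℝ}
    (hD : ∑ i, |(d i : ℝ)| * log (q i) ≤ D) :
    ∃ a b : ℕ, 0 < b ∧ b < a ∧ Nat.Coprime a b ∧ 2 ^ m ∣ a - b ∧
      (∀ p : ℕ, p.Prime → p ∣ a * b → ∃ i, p = q i) ∧ log a ≤ (D + 1) / 2 := by
  have hsum : log (num q d) + log (num q (-d)) = ∑ i, |(d i : ℝ)| * log (q i) := by
    rw [log_num hq, log_num hq, ← Finset.sum_add_distrib]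
    refine Finset.sum_congr rfl fun i _ => ?_
    rw [← add_mul]
    congr 1
    have h3 : ((d i).toNat : ℤ) + ((-d i).toNat : ℤ) = |d i| := by
      rcases le_total (d i) 0 with h | h
      · rw [Int.toNat_of_nonpos h, abs_of_nonpos h, Int.toNat_of_nonneg (by linarith)]; simp
      · rw [Int.toNat_of_nonneg h, abs_of_nonneg h, Int.toNat_of_nonpos (by linarith)]; simp
    have h4 := congrArg (fun z : ℤ => (z : ℝ)) h3
    push_cast at h4
    simpa using h4
  have hdiff : log (num q d) - log (num q (-d)) = ∑ i, (d i : ℝ) * log (q i) := by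
    rw [log_num hq, log_num hq, ← Finset.sum_sub_distrib]
    refine Finset.sum_congr rfl fun i _ => ?_
    rw [← sub_mul]
    congr 1
    have h3 := Int.toNat_sub_toNat_neg (d i)
    have h4 := congrArg (fun z : ℤ => (z : ℝ)) h3
    push_cast at h4
    simpa using h4
  obtain ⟨l1, l2⟩ := abs_le.1 h1
  rw [← hdiff] at l1 l2
  have hmod := num_eq_of_cls u hu d h
  have hcop := num_coprime hq hinj d
  have hne : num q d ≠ num q (-d) := by
    intro he
    rw [← he] at hcop
    have h2 : num q d = 1 := (Nat.coprime_self _).1 hcop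
    rw [← he, h2] at hsum
    simp only [Nat.cast_one, log_one, add_zero] at hsum
    apply hd
    funext i
    have h5 : ∀ j ∈ Finset.univ, 0 ≤ |(d j : ℝ)| * log (q j) := fun j _ =>
      mul_nonneg (abs_nonneg _) (log_nonneg (by exact_mod_cast (hq j).one_lt.le))
    have h6 := (Finset.sum_eq_zero_iff_of_nonneg h5).1 hsum.symm i (Finset.mem_univ i)
    have h7 : 0 < log (q i) := log_pos (by exact_mod_cast (hq i).one_lt)
    have h8 : |(d i : ℝ)| = 0 := by
      rcases mul_eq_zero.1 h6 with h | h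
      · exact h
      · exact absurd h h7.ne'
    have h9 : (d i : ℝ) = 0 := abs_eq_zero.1 h8
    exact_mod_cast h9
  have hdvd1 : num q (-d) < num q d → 2 ^ m ∣ num q d - num q (-d) := by
    intro hlt
    have := (ZMod.natCast_eq_natCast_iff' _ _ _).1 hmod
    exact (Nat.modEq_iff_dvd' hlt.le).1 this.symm
  have hdvd2 : num q d < num q (-d) → 2 ^ m ∣ num q (-d) - num q d := by
    intro hlt
    have := (ZMod.natCast_eq_natCast_iff' _ _ _).1 hmod
    exact (Nat.modEq_iff_dvd' hlt.le).1 this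
  have hpr : ∀ p : ℕ, p.Prime → p ∣ num q d * num q (-d) → ∃ i, p = q i := by
    intro p hp hdv
    rcases (hp.dvd_mul).1 hdv with h | h
    · exact prime_dvd_num hq _ hp h
    · exact prime_dvd_num hq _ hp h
  rcases lt_or_gt_of_ne hne with hlt | hlt
  · refine ⟨num q (-d), num q d, num_pos hq d, hlt, hcop.symm, hdvd2 hlt, ?_, by linarith⟩
    intro p hp hdv
    exact hpr p hp (by rwa [mul_comm])
  · exact ⟨num q d, num q (-d), num_pos hq _, hlt, hcop, hdvd1 hlt, hpr, by linarith⟩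

/-- pigeonhole: a large set of exponent vectors contains a pair at small distance in the same class
modulo `2 ^ m` and the same window -/
lemma pigeon {m : ℕ} {q : ι → ℕ} (hq : ∀ i, (q i).Prime)
    (u : ι → (ZMod (2 ^ m))ˣ) {s : ℝ} (hs : 0 < s) {ε C : ℝ}
    (A : Finset (ι → ℤ))
    (hA : ∀ x ∈ A, ∑ i, U (x i * (log (q i) / s)) ≤ (2 + 2 * ε) * Fintype.card ι)
    (hC : ∀ x ∈ A, ∀ i, |(x i : ℝ)| * (log (q i) / s) ≤ C) {T R : ℕ} (hT : 1 ≤ T)
    (hR : C * Fintype.card ι * s + 1 ≤ R) (hcard : 2 ^ m * (2 * R + 1) * T < A.card) :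
    ∃ d : ι → ℤ, d ≠ 0 ∧ cls u d = 1 ∧ |∑ i, (d i : ℝ) * log (q i)| ≤ 1 ∧
      ∑ i, |(d i : ℝ)| * log (q i) ≤
        s * (2 * Fintype.card ι * (1 + 2 * ε) * (1 + 1 / (T : ℝ))) := by
  classical
  let g : (ι → ℤ) → ZMod (2 ^ m) × ℤ := fun x =>
    ((cls u x : (ZMod (2 ^ m))ˣ), ⌊∑ i, (x i : ℝ) * log (q i)⌋)
  have : NeZero (2 ^ m) := ⟨by positivity⟩
  have hmaps : ∀ x ∈ A, g x ∈ (Finset.univ : Finset (ZMod (2 ^ m))) ×ˢ Finset.Icc (-(R : ℤ)) R := by
    intro x hx
    rw [Finset.mem_product]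
    refine ⟨Finset.mem_univ _, ?_⟩
    have h1 : |∑ i, (x i : ℝ) * log (q i)| ≤ C * Fintype.card ι * s := by
      refine (Finset.abs_sum_le_sum_abs _ _).trans ?_
      calc ∑ i, |(x i : ℝ) * log (q i)| ≤ ∑ i : ι, C * s := by
            refine Finset.sum_le_sum fun i _ => ?_
            have := hC x hx i
            have hl : 0 ≤ log (q i) := log_nonneg (by exact_mod_cast (hq i).one_lt.le)
            rw [abs_mul, abs_of_nonneg hl]
            have h2 : |(x i : ℝ)| * log (q i) = |(x i : ℝ)| * (log (q i) / s) * s := by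
              field_simp
            rw [h2]
            exact mul_le_mul_of_nonneg_right this hs.le
        _ = C * Fintype.card ι * s := by
            rw [Finset.sum_const, Finset.card_univ, nsmul_eq_mul]; ring
    obtain ⟨h2, h3⟩ := abs_le.1 h1
    rw [Finset.mem_Icc]
    constructor
    · show -(R : ℤ) ≤ ⌊∑ i, (x i : ℝ) * log (q i)⌋
      rw [Int.le_floor]
      push_cast
      linarith
    · show ⌊∑ i, (x i : ℝ) * log (q i)⌋ ≤ R
      have : (⌊∑ i, (x i : ℝ) * log (q i)⌋ : ℝ) ≤ R := by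
        have := Int.floor_le (∑ i, (x i : ℝ) * log (q i))
        linarith
      exact_mod_cast this
  have hcard2 : ((Finset.univ : Finset (ZMod (2 ^ m))) ×ˢ Finset.Icc (-(R : ℤ)) R).card * T < A.card := by
    rw [Finset.card_product, Finset.card_univ, ZMod.card, Int.card_Icc]
    have : ((R : ℤ) + 1 - -(R : ℤ)).toNat = 2 * R + 1 := by omega
    rw [this]
    exact hcard
  obtain ⟨y, -, hy⟩ := Finset.exists_lt_card_fiber_of_mul_lt_card_of_maps_to hmaps hcard2
  set F := A.filter (fun x => g x = y) with hF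
  by_contra hcon
  push Not at hcon
  set D0 := 2 * (Fintype.card ι : ℝ) * (1 + 2 * ε) * (1 + 1 / (T : ℝ)) with hD0
  -- distances
  have hdist : ∀ x ∈ F, ∀ x' ∈ F, x ≠ x' → D0 < ∑ i, |(x i : ℝ) * (log (q i) / s) - x' i * (log (q i) / s)| := by
    intro x hx x' hx' hne
    rw [hF, Finset.mem_filter] at hx hx'
    have hg : g x = g x' := hx.2.trans hx'.2.symm
    have hg1 : cls u x = cls u x' := by
      have := congrArg Prod.fst hg
      exact Units.ext this
    have hg2 : ⌊∑ i, (x i : ℝ) * log (q i)⌋ = ⌊∑ i, (x' i : ℝ) * log (q i)⌋ := congrArg Prod.snd hg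
    have hk := hcon (x - x') (sub_ne_zero.2 hne) (by rw [cls_sub, hg1, div_self']) (by
      have e1 : ∑ i, (((x - x') i : ℤ) : ℝ) * log (q i) =
          ∑ i, (x i : ℝ) * log (q i) - ∑ i, (x' i : ℝ) * log (q i) := by
        rw [← Finset.sum_sub_distrib]
        refine Finset.sum_congr rfl fun i _ => ?_
        rw [Pi.sub_apply]; push_cast; ring
      rw [e1]
      exact (Int.abs_sub_lt_one_of_floor_eq_floor hg2).le)
    have e2 : ∑ i, |(((x - x') i : ℤ) : ℝ)| * log (q i) =
        s * ∑ i, |(x i : ℝ) * (log (q i) / s) - x' i * (log (q i) / s)| := by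
      rw [Finset.mul_sum]
      refine Finset.sum_congr rfl fun i _ => ?_
      have hl : 0 ≤ log (q i) := log_nonneg (by exact_mod_cast (hq i).one_lt.le)
      rw [← sub_mul, abs_mul, abs_of_nonneg (div_nonneg hl hs.le), Pi.sub_apply]
      push_cast
      field_simp
    rw [e2] at hk
    exact lt_of_mul_lt_mul_left hk hs.le
  -- total
  have htot : ∑ x ∈ F, ∑ x' ∈ F, ∑ i, |(x i : ℝ) * (log (q i) / s) - x' i * (log (q i) / s)| ≤
      (F.card : ℝ) ^ 2 * (2 * Fintype.card ι * (1 + 2 * ε)) := by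
    have e1 : ∑ x ∈ F, ∑ x' ∈ F, ∑ i, |(x i : ℝ) * (log (q i) / s) - x' i * (log (q i) / s)| =
        ∑ i, ∑ x ∈ F, ∑ x' ∈ F, |(x i : ℝ) * (log (q i) / s) - x' i * (log (q i) / s)| := by
      rw [Finset.sum_comm]
      rw [Finset.sum_congr rfl fun x' _ => Finset.sum_comm]
      rw [Finset.sum_comm]
      refine Finset.sum_congr rfl fun i _ => ?_
      rw [Finset.sum_comm]
    rw [e1]
    calc _ ≤ ∑ i, (2 * F.card * ∑ x ∈ F, U (x i * (log (q i) / s)) - 2 * (F.card : ℝ) ^ 2) :=
          Finset.sum_le_sum fun i _ => pair_ineq F (fun x => (x i : ℝ) * (log (q i) / s))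
      _ = 2 * F.card * ∑ x ∈ F, ∑ i, U (x i * (log (q i) / s)) -
          2 * (F.card : ℝ) ^ 2 * Fintype.card ι := by
          rw [Finset.sum_sub_distrib, ← Finset.mul_sum, Finset.sum_comm, Finset.sum_const,
            Finset.card_univ, nsmul_eq_mul]
          ring
      _ ≤ 2 * F.card * ∑ x ∈ F, ((2 + 2 * ε) * Fintype.card ι) -
          2 * (F.card : ℝ) ^ 2 * Fintype.card ι := by
          refine sub_le_sub_right (mul_le_mul_of_nonneg_left ?_ (by positivity)) _
          refine Finset.sum_le_sum fun x hx => hA x ?_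
          rw [hF, Finset.mem_filter] at hx
          exact hx.1
      _ = (F.card : ℝ) ^ 2 * (2 * Fintype.card ι * (1 + 2 * ε)) := by
          rw [Finset.sum_const, nsmul_eq_mul]; ring
  have hFT : (T : ℝ) + 1 ≤ F.card := by exact_mod_cast hy
  have hT' : (1 : ℝ) ≤ T := by exact_mod_cast hT
  have hlow : (F.card : ℝ) * ((F.card - 1) * D0) <
      ∑ x ∈ F, ∑ x' ∈ F, ∑ i, |(x i : ℝ) * (log (q i) / s) - x' i * (log (q i) / s)| := by
    have hne : F.Nonempty := by
      rw [← Finset.card_pos]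
      omega
    calc (F.card : ℝ) * ((F.card - 1) * D0) = ∑ x ∈ F, ((F.card - 1) * D0) := by
          rw [Finset.sum_const, nsmul_eq_mul]
      _ < _ := by
          refine Finset.sum_lt_sum_of_nonempty hne fun x hx => ?_
          rw [← Finset.add_sum_erase F _ hx]
          have h1 : ((F.card : ℝ) - 1) * D0 = ∑ x' ∈ F.erase x, D0 := by
            rw [Finset.sum_const, nsmul_eq_mul, Finset.card_erase_of_mem hx]
            have : 1 ≤ F.card := by omega
            push_cast [Nat.cast_sub this]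
            ring
          rw [h1]
          have h2 : (F.erase x).Nonempty := by
            rw [← Finset.card_pos, Finset.card_erase_of_mem hx]
            omega
          have h3 : ∑ x' ∈ F.erase x, D0 <
              ∑ x' ∈ F.erase x, ∑ i, |(x i : ℝ) * (log (q i) / s) - x' i * (log (q i) / s)| := by
            refine Finset.sum_lt_sum_of_nonempty h2 fun x' hx' => ?_
            rw [Finset.mem_erase] at hx'
            exact hdist x hx x' hx'.2 (Ne.symm hx'.1)
          have h4 : 0 ≤ ∑ i, |(x i : ℝ) * (log (q i) / s) - x i * (log (q i) / s)| :=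
            Finset.sum_nonneg fun i _ => abs_nonneg _
          linarith
  have hfin := hlow.trans_le htot
  have hFpos : (0:ℝ) < F.card := by linarith
  have h5 : ((F.card : ℝ) - 1) * D0 < F.card * (2 * Fintype.card ι * (1 + 2 * ε)) := by
    have : (F.card : ℝ) * (((F.card : ℝ) - 1) * D0) < F.card * (F.card * (2 * Fintype.card ι * (1 + 2 * ε))) := by
      rw [sq] at hfin; linarith
    exact lt_of_mul_lt_mul_left this hFpos.le
  rw [hD0] at h5
  set E := 2 * (Fintype.card ι : ℝ) * (1 + 2 * ε) with hE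
  have hE0 : 0 ≤ E := by
    by_contra hneg
    push Not at hneg
    have h6 : ∑ x ∈ F, ∑ x' ∈ F, ∑ i, |(x i : ℝ) * (log (q i) / s) - x' i * (log (q i) / s)| ≥ 0 :=
      Finset.sum_nonneg fun x _ => Finset.sum_nonneg fun x' _ => Finset.sum_nonneg fun i _ => abs_nonneg _
    have h7 : (F.card : ℝ) ^ 2 * E < 0 := mul_neg_of_pos_of_neg (by positivity) hneg
    linarith
  have h7 : (F.card : ℝ) ≤ (F.card - 1) * (1 + 1 / T) := by
    have h8 : (0:ℝ) < T := by linarith
    rw [show (F.card - 1 : ℝ) * (1 + 1 / T) = F.card + ((F.card - 1) / T - 1) by field_simp; ring]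
    have : (1 : ℝ) ≤ (F.card - 1) / T := by rw [le_div_iff₀ h8]; linarith
    linarith
  nlinarith

end vec

end Pool.Agent.J6H13.ABC
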